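import Mathlib
import Pool.Agent.H217R3.AKV.Count
import Pool.Agent.TH539.StrProj

set_option autoImplicit false

/-! # Structured slices: vectors

`A ⊂ ℤ^d × ℤ^d` is a finite set of pairs (first term, common difference). If the sets
`{x + c y : (x, y) ∈ A}`, for `k + 1` integers `c`, are covered by few sets of small doubling, then
one of them is large: at least `|{y}| ^ (k / (k + 1))`, up to a power of the doubling.
-/

open Finset
open scoped Pointwise

namespace Pool.Agent.N240.S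

open Pool.Agent.H217R3.AKV (H phi BB)
open Pool.Agent.TH539.StrProj (two four)

/-- `x + c y` as a homomorphism -/
def ph (d : ℕ) (c : ℤ) : H d × H d →+ H d where
  toFun z := phi c z
  map_zero' := by simp [phi]
  map_add' u v := Pool.Agent.H217R3.AKV.phi_add c u v

theorem ph_apply {d : ℕ} (c : ℤ) (z : H d × H d) : ph d c z = phi c z := rfl

theorem ph_inj {d k : ℕ} (hk : 1 ≤ k) (c : Fin (k + 1) → ℤ) (hc : Function.Injective c) :
    Function.Injective (fun z : H d × H d => fun i => ph d (c i) z) := by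
  intro u v h
  have h0 : phi (c 0) u = phi (c 0) v := congrFun h 0
  have h1 : phi (c ⟨1, by omega⟩) u = phi (c ⟨1, by omega⟩) v := congrFun h ⟨1, by omega⟩
  have hne : c ⟨1, by omega⟩ - c 0 ≠ 0 := by
    rw [sub_ne_zero]
    intro h2
    have h3 := hc h2
    rw [Fin.ext_iff] at h3
    simp at h3
  simp only [phi] at h0 h1
  have h2 : (c ⟨1, by omega⟩ - c 0) • u.2 = (c ⟨1, by omega⟩ - c 0) • v.2 := by
    rw [sub_smul, sub_smul]
    have h3 : (u.1 + c ⟨1, by omega⟩ • u.2) - (u.1 + c 0 • u.2) =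
        (v.1 + c ⟨1, by omega⟩ • v.2) - (v.1 + c 0 • v.2) := by rw [h0, h1]
    rwa [add_sub_add_left_eq_sub, add_sub_add_left_eq_sub] at h3
  have h3 := Pool.Agent.H217R3.AKV.zsmul_cancel hne h2
  rw [h3] at h0
  exact Prod.ext (add_right_cancel h0) h3

theorem one_le_of {V : Type*} [AddCommGroup V] [DecidableEq V] {D : Finset V} (hD : D.Nonempty)
    {K : ℝ} (h : ((D + D).card : ℝ) ≤ K * D.card) : 1 ≤ K := by
  have h1 : D.card ≤ (D + D).card := Finset.card_le_card_add_right hD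
  have h2 : (D.card : ℝ) ≤ ((D + D).card : ℝ) := by exact_mod_cast h1
  have h3 : (0 : ℝ) < D.card := by exact_mod_cast hD.card_pos
  have h4 : 1 * (D.card : ℝ) ≤ K * D.card := by linarith
  exact le_of_mul_le_mul_right h4 h3

theorem cell (d k : ℕ) (hk : 1 ≤ k) (c : Fin (k + 1) → ℤ) (hc : Function.Injective c) :
    ∃ C : ℕ, ∀ (A : Finset (H d × H d)), A.Nonempty → ∀ (K M : ℝ) (D : Fin (k + 1) → Finset (H d)),
      (∀ i, ((D i + D i).card : ℝ) ≤ K * (D i).card) → (∀ i, ((D i).card : ℝ) ≤ M) →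
      (∀ v ∈ A, ∀ i, phi (c i) v ∈ D i) →
      ((A.image Prod.snd).card : ℝ) ^ k ≤ K ^ C * M ^ (k + 1) := by
  obtain ⟨C₀, hC₀⟩ := Pool.Agent.H217R3.AKV.main (d := d) k c hc
  refine ⟨9 * (k + 1) * C₀ + 4 * (k + 1), ?_⟩
  intro A hA K M D hK hM hAD
  obtain ⟨a0, ha0⟩ := hA
  have hDne : ∀ i, (D i).Nonempty := fun i => ⟨_, hAD a0 ha0 i⟩
  have hK1 : 1 ≤ K := one_le_of (hDne 0) (hK 0)
  have hK0 : 0 ≤ K := by linarith
  have hM0 : 0 ≤ M := le_trans (Nat.cast_nonneg _) (hM 0)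
  obtain ⟨B2, hB2⟩ := Pool.Agent.TH539.StrProj.exists_preimage (fun i => ph d (c i))
    (ph_inj hk c hc) (fun i => two (D i))
  obtain ⟨B4, hB4⟩ := Pool.Agent.TH539.StrProj.exists_preimage (fun i => ph d (c i))
    (ph_inj hk c hc) (fun i => four (D i))
  have hdouble := Pool.Agent.TH539.StrProj.inter (fun i => ph d (c i)) D hDne hK B2 B4 hB2 hB4
  rw [Fintype.card_fin, ← pow_mul] at hdouble
  have hsubB : ∀ v ∈ A, v - a0 ∈ B2 := by
    intro v hv
    rw [hB2]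
    intro i
    have h1 := hAD v hv i
    have h2 := hAD a0 ha0 i
    refine Finset.mem_sub.2 ⟨phi (c i) v + phi (c i) v, Finset.add_mem_add h1 h1,
      phi (c i) a0 + phi (c i) v, Finset.add_mem_add h2 h1, ?_⟩
    rw [map_sub, ph_apply, ph_apply]; abel
  have hB2ne : B2.Nonempty := ⟨_, hsubB a0 ha0⟩
  have hmain := hC₀ B2 hB2ne (K ^ (9 * (k + 1))) (by positivity)
    (fun m => Pool.Agent.H217R3.AKV.card_BB_of_add hB2ne hdouble m)
  have hle : ((A.image Prod.snd).card : ℝ) ≤ ((B2.image Prod.snd).card : ℝ) := by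
    have : (A.image Prod.snd).card ≤ (B2.image Prod.snd).card := by
      apply Finset.card_le_card_of_injOn (fun t => t - a0.2)
      · intro t ht
        rw [Finset.mem_coe] at ht ⊢
        obtain ⟨v, hv, rfl⟩ := Finset.mem_image.1 ht
        exact Finset.mem_image.2 ⟨v - a0, hsubB v hv, by rw [Prod.snd_sub]⟩
      · intro s _ t _ h
        exact sub_left_injective h
    exact_mod_cast this
  have htwo : ∀ i, ((two (D i)).card : ℝ) ≤ K ^ 4 * M := fun i =>
    (Pool.Agent.TH539.StrProj.card_two (hDne i) (hK i)).trans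
      (mul_le_mul_of_nonneg_left (hM i) (by positivity))
  have hr : ∀ i, ((B2.image (phi (c i))).card : ℝ) ≤ K ^ 4 * M := by
    intro i
    refine le_trans ?_ (htwo i)
    have : B2.image (phi (c i)) ⊆ two (D i) := by
      intro t ht
      obtain ⟨v, hv, rfl⟩ := Finset.mem_image.1 ht
      exact (hB2 v).1 hv i
    exact_mod_cast Finset.card_le_card this
  have hprod : ∏ i, ((B2.image (phi (c i))).card : ℝ) ≤ (K ^ 4 * M) ^ (k + 1) := by
    calc ∏ i, ((B2.image (phi (c i))).card : ℝ) ≤ ∏ _i : Fin (k + 1), (K ^ 4 * M) :=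
          Finset.prod_le_prod (fun _ _ => Nat.cast_nonneg _) (fun i _ => hr i)
      _ = _ := by rw [Finset.prod_const, Finset.card_univ, Fintype.card_fin]
  calc ((A.image Prod.snd).card : ℝ) ^ k ≤ ((B2.image Prod.snd).card : ℝ) ^ k :=
        pow_le_pow_left₀ (Nat.cast_nonneg _) hle _
    _ ≤ (K ^ (9 * (k + 1))) ^ C₀ * ∏ i, ((B2.image (phi (c i))).card : ℝ) := hmain
    _ ≤ (K ^ (9 * (k + 1))) ^ C₀ * (K ^ 4 * M) ^ (k + 1) := by
        apply mul_le_mul_of_nonneg_left hprod (by positivity)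
    _ = K ^ (9 * (k + 1) * C₀ + 4 * (k + 1)) * M ^ (k + 1) := by
        have e : K ^ (9 * (k + 1) * C₀ + 4 * (k + 1)) =
            (K ^ (9 * (k + 1))) ^ C₀ * (K ^ 4) ^ (k + 1) := by
          rw [pow_add K, pow_mul K (9 * (k + 1)) C₀, pow_mul K 4 (k + 1)]
        rw [e, mul_pow (K ^ 4) M (k + 1), mul_assoc]

/-- `P` is covered by at most `L` sets `D` with `|D + D| ≤ K |D|` and `|D| ≤ M`. -/
def Str {d : ℕ} (K L M : ℝ) (P : Finset (H d)) : Prop :=
  ∃ 𝒟 : Finset (Finset (H d)), (𝒟.card : ℝ) ≤ L ∧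
    (∀ D ∈ 𝒟, ((D + D).card : ℝ) ≤ K * D.card ∧ (D.card : ℝ) ≤ M) ∧
    ∀ x ∈ P, ∃ D ∈ 𝒟, x ∈ D

theorem Str.one_le {d : ℕ} {K L M : ℝ} {P : Finset (H d)} (hP : P.Nonempty)
    (h : Str K L M P) : 1 ≤ K ∧ 1 ≤ L ∧ 1 ≤ M := by
  obtain ⟨𝒟, h1, h2, h3⟩ := h
  obtain ⟨x, hx⟩ := hP
  obtain ⟨D, hD, hxD⟩ := h3 x hx
  obtain ⟨h4, h5⟩ := h2 D hD
  have hDne : D.Nonempty := ⟨x, hxD⟩
  refine ⟨one_le_of hDne h4, le_trans ?_ h1, le_trans ?_ h5⟩
  · exact_mod_cast (Finset.card_pos.2 ⟨D, hD⟩)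
  · exact_mod_cast hDne.card_pos

theorem main (d k : ℕ) (hk : 1 ≤ k) (c : Fin (k + 1) → ℤ) (hc : Function.Injective c) :
    ∃ C : ℕ, ∀ (A : Finset (H d × H d)), A.Nonempty → ∀ (K L M : ℝ),
      (∀ i, Str K L M (A.image (phi (c i)))) →
      ((A.image Prod.snd).card : ℝ) ^ k ≤ (K * L) ^ C * M ^ (k + 1) := by
  classical
  obtain ⟨C₁, hC₁⟩ := cell d k hk c hc
  refine ⟨C₁ + (k + 1) * k, ?_⟩
  intro A hA K L M hr
  obtain ⟨hK1, hL1, hM1⟩ := (hr 0).one_le (hA.image _)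
  have hall : ∀ i : Fin (k + 1), ∃ 𝒟 : Finset (Finset (H d)), (𝒟.card : ℝ) ≤ L ∧
      (∀ D ∈ 𝒟, ((D + D).card : ℝ) ≤ K * D.card ∧ (D.card : ℝ) ≤ M) ∧
      ∀ v ∈ A, ∃ D ∈ 𝒟, phi (c i) v ∈ D := by
    intro i
    obtain ⟨𝒟, h1, h2, h3⟩ := hr i
    exact ⟨𝒟, h1, h2, fun v hv => h3 _ (Finset.mem_image.2 ⟨v, hv, rfl⟩)⟩
  choose 𝒟 h1 h2 h3 using hall
  set T : Finset (Fin (k + 1) → Finset (H d)) := Fintype.piFinset 𝒟 with hT
  set AD : (Fin (k + 1) → Finset (H d)) → Finset (H d × H d) :=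
    fun D => A.filter (fun v => ∀ i, phi (c i) v ∈ D i) with hAD
  have hcov : ∀ v ∈ A, ∃ D ∈ T, v ∈ AD D := by
    intro v hv
    choose D hD1 hD2 using fun i => h3 i v hv
    exact ⟨D, Fintype.mem_piFinset.2 hD1, Finset.mem_filter.2 ⟨hv, hD2⟩⟩
  have hTne : T.Nonempty := by
    obtain ⟨v, hv⟩ := hA
    obtain ⟨D, hD, _⟩ := hcov v hv
    exact ⟨D, hD⟩
  obtain ⟨D₀, hD₀, hmax⟩ := Finset.exists_max_image T (fun D => ((AD D).image Prod.snd).card) hTne
  have hunion : (A.image Prod.snd).card ≤ T.card * ((AD D₀).image Prod.snd).card := by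
    have hsub : A.image Prod.snd ⊆ T.biUnion (fun D => (AD D).image Prod.snd) := by
      intro t ht
      obtain ⟨v, hv, rfl⟩ := Finset.mem_image.1 ht
      obtain ⟨D, hD, hvD⟩ := hcov v hv
      exact Finset.mem_biUnion.2 ⟨D, hD, Finset.mem_image.2 ⟨v, hvD, rfl⟩⟩
    calc (A.image Prod.snd).card ≤ _ := Finset.card_le_card hsub
      _ ≤ ∑ D ∈ T, ((AD D).image Prod.snd).card := Finset.card_biUnion_le
      _ ≤ ∑ _D ∈ T, ((AD D₀).image Prod.snd).card := Finset.sum_le_sum hmax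
      _ = _ := by rw [Finset.sum_const, smul_eq_mul]
  have hTcard : (T.card : ℝ) ≤ L ^ (k + 1) := by
    rw [hT, Fintype.card_piFinset]
    push_cast
    calc ∏ i, ((𝒟 i).card : ℝ) ≤ ∏ _i : Fin (k + 1), L :=
          Finset.prod_le_prod (fun _ _ => Nat.cast_nonneg _) (fun i _ => h1 i)
      _ = L ^ (k + 1) := by
        rw [Finset.prod_const, Finset.card_univ, Fintype.card_fin]
  have hcell : (((AD D₀).image Prod.snd).card : ℝ) ^ k ≤ K ^ C₁ * M ^ (k + 1) := by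
    rcases (AD D₀).eq_empty_or_nonempty with he | he
    · rw [he, Finset.image_empty, Finset.card_empty, Nat.cast_zero, zero_pow (by omega)]
      positivity
    · refine hC₁ (AD D₀) he K M D₀ (fun i => ?_) (fun i => ?_) (fun v hv i => ?_)
      · exact (h2 i _ (Fintype.mem_piFinset.1 hD₀ i)).1
      · exact (h2 i _ (Fintype.mem_piFinset.1 hD₀ i)).2
      · exact (Finset.mem_filter.1 hv).2 i
  have hL0 : 0 ≤ L := by linarith
  have hK0 : 0 ≤ K := by linarith
  have hM0 : 0 ≤ M := by linarith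
  calc ((A.image Prod.snd).card : ℝ) ^ k
      ≤ ((T.card : ℝ) * (((AD D₀).image Prod.snd).card : ℝ)) ^ k := by
        apply pow_le_pow_left₀ (Nat.cast_nonneg _)
        exact_mod_cast hunion
    _ = (T.card : ℝ) ^ k * (((AD D₀).image Prod.snd).card : ℝ) ^ k := mul_pow _ _ _
    _ ≤ (L ^ (k + 1)) ^ k * (K ^ C₁ * M ^ (k + 1)) := by
        apply mul_le_mul _ hcell (by positivity) (by positivity)
        exact pow_le_pow_left₀ (Nat.cast_nonneg _) hTcard _
    _ = (K ^ C₁ * L ^ ((k + 1) * k)) * M ^ (k + 1) := by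
        rw [← pow_mul]; ring
    _ ≤ (K ^ (C₁ + (k + 1) * k) * L ^ (C₁ + (k + 1) * k)) *
          M ^ (k + 1) := by
        apply mul_le_mul_of_nonneg_right _ (by positivity)
        apply mul_le_mul (pow_le_pow_right₀ hK1 (by omega)) (pow_le_pow_right₀ hL1 (by omega))
          (by positivity) (by positivity)
    _ = _ := by rw [mul_pow]

end Pool.Agent.N240.S
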