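import Mathlib
import Pool.Agent.N240.S.Str

set_option autoImplicit false

/-! # Structured slices: heights in arithmetic progression, and the volume of a neighbourhood -/

open Finset MeasureTheory
open scoped Pointwise ENNReal

namespace Pool.Agent.N240.S

open Pool.Agent.H217R3.AKV (H phi BB)

/-- the point `(x, t)` -/
noncomputable def pt {d : ℕ} (x : Fin d → ℝ) (t : ℝ) : EuclideanSpace ℝ (Fin (d + 1)) :=
  WithLp.toLp 2 (Fin.snoc x t : Fin (d + 1) → ℝ)

/-- the slice of `K` at height `t` -/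
def slice {d : ℕ} (K : Set (EuclideanSpace ℝ (Fin (d + 1)))) (t : ℝ) : Set (Fin d → ℝ) :=
  {x | pt x t ∈ K}

/-- the (indices of the) cubes of side `δ` met by `X` -/
def cells {d : ℕ} (δ : ℝ) (X : Set (Fin d → ℝ)) : Set (Fin d → ℤ) := (fun x i => ⌊x i / δ⌋) '' X

/-- the set of the cubes of side `δ` met by `X` is the union of at most `L` finite sets of doubling
at most `L` -/
def Structured {d : ℕ} (L δ : ℝ) (X : Set (Fin d → ℝ)) : Prop :=
  ∃ 𝒟 : Finset (Finset (Fin d → ℤ)), (𝒟.card : ℝ) ≤ L ∧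
    (∀ D ∈ 𝒟, (D : Set (Fin d → ℤ)) ⊆ cells δ X ∧ ((D + D).card : ℝ) ≤ L * D.card) ∧
    cells δ X ⊆ ⋃ D ∈ 𝒟, (D : Set (Fin d → ℤ))

theorem Structured.finite {d : ℕ} {L δ : ℝ} {X : Set (Fin d → ℝ)} (h : Structured L δ X) :
    (cells δ X).Finite := by
  obtain ⟨𝒟, _, _, h⟩ := h
  refine Set.Finite.subset ?_ h
  exact Set.Finite.biUnion (Finset.finite_toSet 𝒟) (fun D _ => Finset.finite_toSet D)

theorem floor_step (a b : ℝ) (j k : ℕ) (hjk : j ≤ k) :
    0 ≤ ⌊a + j * b⌋ - (⌊a⌋ + j * ⌊b⌋) ∧ ⌊a + j * b⌋ - (⌊a⌋ + j * ⌊b⌋) ≤ k := by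
  have h1 := Int.floor_le a
  have h2 := Int.lt_floor_add_one a
  have h3 := Int.floor_le b
  have h4 := Int.lt_floor_add_one b
  have hj : (0 : ℝ) ≤ j := Nat.cast_nonneg _
  constructor
  · rw [sub_nonneg, Int.le_floor]
    push_cast
    nlinarith [mul_le_mul_of_nonneg_left h3 hj]
  · have h5 : ⌊a + j * b⌋ < ⌊a⌋ + j * ⌊b⌋ + k + 1 := by
      rw [Int.floor_lt]
      push_cast
      have h6 : (j : ℝ) * b ≤ j * (⌊b⌋ + 1) := mul_le_mul_of_nonneg_left h4.le hj
      have h7 : (j : ℝ) ≤ k := by exact_mod_cast hjk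
      nlinarith
    omega

/-- one arithmetic progression of structured slices -/
theorem prog (d k : ℕ) (hk : 1 ≤ k) : ∃ C : ℕ, ∀ (δ : ℝ), 0 < δ → ∀ (L M : ℝ)
    (X : Fin (k + 1) → Set (Fin d → ℝ)), (∀ j, Structured L δ (X j)) →
    (∀ j, ((cells δ (X j)).ncard : ℝ) ≤ M) →
    ∀ 𝒲 : Finset (Fin d → ℤ), 𝒲.Nonempty → (∀ w ∈ 𝒲, ∃ x y : Fin d → ℝ, (∀ i, ⌊y i⌋ = w i) ∧
      ∀ j : Fin (k + 1), (fun i => x i + (j : ℕ) * (δ * y i)) ∈ X j) →
    (𝒲.card : ℝ) ^ k ≤ (L * (L * ((k : ℝ) + 1) ^ d)) ^ C * M ^ (k + 1) := by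
  classical
  obtain ⟨C, hC⟩ := main d k hk (fun j => ((j : ℕ) : ℤ)) (fun i j h => by
    apply Fin.ext
    have h' : (((i : ℕ) : ℤ)) = ((j : ℕ) : ℤ) := h
    exact_mod_cast h')
  refine ⟨C, fun δ hδ L M X hX hM 𝒲 hne hw => ?_⟩
  choose! x y hy hxy using hw
  set A : Finset (H d × H d) := 𝒲.image (fun w => ((fun i => ⌊x w i / δ⌋), w)) with hA
  have hAne : A.Nonempty := hne.image _
  have hsnd : A.image Prod.snd = 𝒲 := by
    rw [hA, Finset.image_image]
    exact Finset.image_id'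
  have key := hC A hAne L (L * ((k : ℝ) + 1) ^ d) M ?_
  · rw [hsnd] at key
    exact key
  · intro j
    obtain ⟨𝒟, h1, h2, h3⟩ := hX j
    set E : Finset (Fin d → ℤ) := Fintype.piFinset (fun _ => Finset.Icc (0 : ℤ) k) with hE
    have hEc : (E.card : ℝ) = ((k : ℝ) + 1) ^ d := by
      rw [hE, Fintype.card_piFinset]
      simp
    refine ⟨(𝒟 ×ˢ E).image (fun p => p.1 + {-p.2}), ?_, ?_, ?_⟩
    · have h4 : (((𝒟 ×ˢ E).image (fun p => p.1 + {-p.2})).card : ℝ) ≤ ((𝒟 ×ˢ E).card : ℝ) := by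
        exact_mod_cast Finset.card_image_le
      refine h4.trans ?_
      rw [Finset.card_product]
      push_cast
      rw [hEc]
      exact mul_le_mul_of_nonneg_right h1 (by positivity)
    · intro D' hD'
      obtain ⟨⟨D, e⟩, hp, rfl⟩ := Finset.mem_image.1 hD'
      have hD : D ∈ 𝒟 := (Finset.mem_product.1 hp).1
      obtain ⟨h4, h5⟩ := h2 D hD
      simp only
      have e1 : (D + {-e}) + (D + {-e}) = (D + D) + {-e + -e} := by
        rw [add_add_add_comm, Finset.singleton_add_singleton]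
      rw [e1, Finset.card_add_singleton, Finset.card_add_singleton]
      refine ⟨h5, le_trans ?_ (hM j)⟩
      have h6 : (D : Set (Fin d → ℤ)).ncard ≤ (cells δ (X j)).ncard :=
        Set.ncard_le_ncard h4 (hX j).finite
      rw [Set.ncard_coe_finset] at h6
      exact_mod_cast h6
    · intro z hz
      rw [hA, Finset.image_image] at hz
      obtain ⟨w, hw, rfl⟩ := Finset.mem_image.1 hz
      have hmem : (fun i => ⌊(x w i + (j : ℕ) * (δ * y w i)) / δ⌋) ∈ cells δ (X j) :=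
        ⟨_, hxy w hw j, rfl⟩
      have h4 := h3 hmem
      rw [Set.mem_iUnion₂] at h4
      obtain ⟨D, hD, hzD⟩ := h4
      have hfl : ∀ i, ⌊(x w i + (j : ℕ) * (δ * y w i)) / δ⌋ = ⌊x w i / δ + (j : ℕ) * y w i⌋ := by
        intro i
        congr 1
        field_simp
      refine ⟨D + {-(fun i => ⌊(x w i + (j : ℕ) * (δ * y w i)) / δ⌋ -
        (⌊x w i / δ⌋ + ((j : ℕ) : ℤ) * w i))}, ?_, ?_⟩
      · refine Finset.mem_image.2 ⟨(D, _), Finset.mem_product.2 ⟨hD, ?_⟩, rfl⟩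
        rw [hE, Fintype.mem_piFinset]
        intro i
        change ⌊(x w i + (j : ℕ) * (δ * y w i)) / δ⌋ -
          (⌊x w i / δ⌋ + ((j : ℕ) : ℤ) * w i) ∈ Finset.Icc (0 : ℤ) k
        rw [hfl i, ← hy w hw i, Finset.mem_Icc]
        exact floor_step _ _ _ _ (by omega)
      · rw [Finset.mem_add]
        refine ⟨_, hzD, _, Finset.mem_singleton_self _, ?_⟩
        funext i
        simp only [Function.comp, phi, Pi.add_apply, Pi.neg_apply, Pi.smul_apply, smul_eq_mul]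
        ring

/-- the cube number `(z, m)` -/
def box {d : ℕ} (δ τ : ℝ) (z : Fin d → ℤ) (m : ℤ) : Set (EuclideanSpace ℝ (Fin (d + 1))) :=
  {y | (∀ i : Fin d, ⌊y i.castSucc / δ⌋ = z i) ∧ ⌊(y (Fin.last d) - τ) / δ⌋ = m}

theorem floor_div_iff {δ y : ℝ} (hδ : 0 < δ) (z : ℤ) :
    ⌊y / δ⌋ = z ↔ y ∈ Set.Ico (z * δ) (z * δ + δ) := by
  rw [Int.floor_eq_iff, le_div_iff₀ hδ, div_lt_iff₀ hδ, Set.mem_Ico, add_mul, one_mul]

theorem box_eq {d : ℕ} {δ τ : ℝ} (hδ : 0 < δ) (z : Fin d → ℤ) (m : ℤ) :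
    box δ τ z m = (WithLp.ofLp : EuclideanSpace ℝ (Fin (d + 1)) → (Fin (d + 1) → ℝ)) ⁻¹'
      (Set.pi Set.univ (Fin.snoc (fun i => Set.Ico (z i * δ) (z i * δ + δ))
        (Set.Ico (m * δ + τ) (m * δ + τ + δ)) : Fin (d + 1) → Set ℝ)) := by
  ext y
  simp only [box, Set.mem_ofPred_eq, Set.mem_preimage, Set.mem_pi, Set.mem_univ, true_implies]
  rw [Fin.forall_fin_succ']
  simp only [Fin.snoc_castSucc, Fin.snoc_last]
  refine and_congr (forall_congr' fun i => floor_div_iff hδ _) ?_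
  rw [floor_div_iff hδ]
  constructor
  · rintro ⟨h1, h2⟩
    exact ⟨by linarith, by linarith⟩
  · rintro ⟨h1, h2⟩
    exact ⟨by linarith, by linarith⟩

theorem box_meas {d : ℕ} {δ τ : ℝ} (hδ : 0 < δ) (z : Fin d → ℤ) (m : ℤ) :
    MeasurableSet (box δ τ z m) := by
  rw [box_eq hδ]
  refine (PiLp.continuous_ofLp 2 _).measurable (MeasurableSet.univ_pi fun i => ?_)
  refine Fin.lastCases ?_ (fun i => ?_) i
  · rw [Fin.snoc_last]; exact measurableSet_Ico
  · rw [Fin.snoc_castSucc]; exact measurableSet_Ico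

theorem box_vol {d : ℕ} {δ τ : ℝ} (hδ : 0 < δ) (z : Fin d → ℤ) (m : ℤ) :
    volume (box δ τ z m) = ENNReal.ofReal (δ ^ (d + 1)) := by
  rw [box_eq hδ]
  rw [(PiLp.volume_preserving_ofLp (Fin (d + 1))).measure_preimage ?_]
  · rw [volume_pi_pi, Fin.prod_univ_castSucc]
    simp only [Fin.snoc_castSucc, Fin.snoc_last, Real.volume_Ico, add_sub_cancel_left]
    rw [Finset.prod_const, Finset.card_univ, Fintype.card_fin, ← pow_succ,
      ENNReal.ofReal_pow hδ.le]
  · apply MeasurableSet.nullMeasurableSet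
    refine MeasurableSet.univ_pi fun i => ?_
    refine Fin.lastCases ?_ (fun i => ?_) i
    · rw [Fin.snoc_last]; exact measurableSet_Ico
    · rw [Fin.snoc_castSucc]; exact measurableSet_Ico

theorem box_sub {d : ℕ} {δ τ : ℝ} (hδ : 0 < δ) (K : Set (EuclideanSpace ℝ (Fin (d + 1))))
    (z : Fin d → ℤ) (m : ℤ) (hz : z ∈ cells δ (slice K (τ + m * δ))) :
    box δ τ z m ⊆ Metric.thickening (√(d + 1) * δ) K := by
  obtain ⟨x, hx, hxz⟩ := hz
  intro y hy
  rw [Metric.mem_thickening_iff]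
  refine ⟨_, hx, ?_⟩
  rw [EuclideanSpace.dist_eq]
  have h1 : ∀ i : Fin (d + 1), dist (y i) (pt x (τ + m * δ) i) ^ 2 < δ ^ 2 := by
    intro i
    have h2 : |y i - pt x (τ + m * δ) i| < δ := by
      refine Fin.lastCases ?_ (fun i => ?_) i
      · have h3 := (floor_div_iff hδ m).1 hy.2
        have h4 : pt x (τ + m * δ) (Fin.last d) = τ + m * δ := by
          simp [pt]
        rw [h4, abs_lt]
        constructor <;> linarith [h3.1, h3.2]
      · have h3 := (floor_div_iff hδ (z i)).1 (hy.1 i)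
        have h5 : ⌊x i / δ⌋ = z i := congrFun hxz i
        have h4 := (floor_div_iff hδ (z i)).1 h5
        have h6 : pt x (τ + m * δ) i.castSucc = x i := by
          simp [pt]
        rw [h6, abs_lt]
        constructor <;> linarith [h3.1, h3.2, h4.1, h4.2]
    rw [Real.dist_eq, sq_abs]
    exact sq_lt_sq' (by linarith [(abs_lt.1 h2).1]) (abs_lt.1 h2).2
  have h2 : ∑ i, dist (y i) (pt x (τ + m * δ) i) ^ 2 < ∑ _i : Fin (d + 1), δ ^ 2 :=
    Finset.sum_lt_sum_of_nonempty Finset.univ_nonempty (fun i _ => h1 i)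
  rw [Finset.sum_const, Finset.card_univ, Fintype.card_fin, nsmul_eq_mul] at h2
  calc √(∑ i, dist (y i) (pt x (τ + m * δ) i) ^ 2) < √(((d + 1 : ℕ) : ℝ) * δ ^ 2) :=
        Real.sqrt_lt_sqrt (Finset.sum_nonneg fun i _ => by positivity) h2
    _ = √(d + 1) * δ := by
        rw [Real.sqrt_mul (by positivity), Real.sqrt_sq hδ.le]
        push_cast
        rfl

/-- volume of the neighbourhood from below by the number of cells -/
theorem vol_lower {d : ℕ} {δ τ : ℝ} (hδ : 0 < δ) (K : Set (EuclideanSpace ℝ (Fin (d + 1))))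
    (F : Finset ℤ) (X : ℝ) (hF : ∀ m ∈ F, (cells δ (slice K (τ + m * δ))).Finite ∧
      X ≤ ((cells δ (slice K (τ + m * δ))).ncard : ℝ)) :
    ENNReal.ofReal (F.card * X * δ ^ (d + 1)) ≤ volume (Metric.thickening (√(d + 1) * δ) K) := by
  classical
  have hfin : ∀ m : ℤ, ∃ Z : Finset (Fin d → ℤ), m ∈ F →
      (∀ z ∈ Z, z ∈ cells δ (slice K (τ + m * δ))) ∧ X ≤ (Z.card : ℝ) := by
    intro m
    by_cases hm : m ∈ F
    · obtain ⟨h1, h2⟩ := hF m hm
      refine ⟨h1.toFinset, fun _ => ⟨fun z hz => by simpa using hz, ?_⟩⟩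
      rw [← Set.ncard_eq_toFinset_card _ h1]
      exact h2
    · exact ⟨∅, fun h => absurd h hm⟩
  choose Z hZ using hfin
  set P : Finset ((_ : ℤ) × (Fin d → ℤ)) := F.sigma Z with hP
  have hcard : (F.card : ℝ) * X ≤ (P.card : ℝ) := by
    rw [hP, Finset.card_sigma]
    push_cast
    calc (F.card : ℝ) * X = ∑ _m ∈ F, X := by rw [Finset.sum_const, nsmul_eq_mul]
      _ ≤ ∑ m ∈ F, ((Z m).card : ℝ) := Finset.sum_le_sum fun m hm => (hZ m hm).2
  have hdisj : Set.PairwiseDisjoint (P : Set ((_ : ℤ) × (Fin d → ℤ)))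
      (fun p => box δ τ p.2 p.1) := by
    intro p _ q _ hpq
    rw [Function.onFun, Set.disjoint_left]
    intro y hy hy'
    apply hpq
    have h1 : p.1 = q.1 := hy.2.symm.trans hy'.2
    have h2 : p.2 = q.2 := funext fun i => (hy.1 i).symm.trans (hy'.1 i)
    rcases p with ⟨p1, p2⟩
    rcases q with ⟨q1, q2⟩
    simp only at h1 h2
    rw [h1, h2]
  have hunion : (⋃ p ∈ P, box δ τ p.2 p.1) ⊆ Metric.thickening (√(d + 1) * δ) K := by
    apply Set.iUnion₂_subset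
    intro p hp
    rw [hP, Finset.mem_sigma] at hp
    exact box_sub hδ K _ _ ((hZ p.1 hp.1).1 _ hp.2)
  calc ENNReal.ofReal (F.card * X * δ ^ (d + 1))
      ≤ ENNReal.ofReal ((P.card : ℝ) * δ ^ (d + 1)) := by
        apply ENNReal.ofReal_le_ofReal
        exact mul_le_mul_of_nonneg_right hcard (by positivity)
    _ = ∑ p ∈ P, volume (box δ τ p.2 p.1) := by
        simp only [box_vol hδ]
        rw [Finset.sum_const, nsmul_eq_mul, ENNReal.ofReal_mul (Nat.cast_nonneg _),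
          ENNReal.ofReal_natCast]
    _ = volume (⋃ p ∈ P, box δ τ p.2 p.1) :=
        (measure_biUnion_finset hdisj (fun p _ => box_meas hδ _ _)).symm
    _ ≤ _ := measure_mono hunion

end Pool.Agent.N240.S
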