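import Mathlib
import Pool.Agent.N240.S.Geo

set_option autoImplicit false

/-! # Structured slices: one progression of heights -/

open Finset MeasureTheory
open scoped Pointwise ENNReal

namespace Pool.Agent.N240.S

/-- the number of cells met by a set of slopes -/
theorem slopesR {d : ℕ} (V : Set (Fin d → ℝ)) (hV : ∀ v ∈ V, ∀ i, v i ∈ Set.Icc (0 : ℝ) 1)
    {lam : ℝ} (hlam : ENNReal.ofReal lam ≤ volume V) {g : ℝ} (hg0 : 0 < g) :
    ∃ 𝒲 : Finset (Fin d → ℤ), (∀ w ∈ 𝒲, ∃ v ∈ V, ∀ i, ⌊g * v i⌋ = w i) ∧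
      lam * g ^ d ≤ 𝒲.card := by
  classical
  have hfin : ((fun (v : Fin d → ℝ) i => ⌊g * v i⌋) '' V).Finite := by
    refine Set.Finite.subset
      (Finset.finite_toSet (Fintype.piFinset (fun _ : Fin d => Finset.Icc (0 : ℤ) ⌊g⌋))) ?_
    rintro _ ⟨v, hv, rfl⟩
    rw [Finset.mem_coe, Fintype.mem_piFinset]
    intro i
    have h := hV v hv i
    rw [Finset.mem_Icc]
    constructor
    · rw [Int.le_floor]; push_cast; exact mul_nonneg hg0.le h.1
    · apply Int.floor_le_floor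
      calc g * v i ≤ g * 1 := mul_le_mul_of_nonneg_left h.2 hg0.le
        _ = g := mul_one _
  refine ⟨hfin.toFinset, ?_, ?_⟩
  · intro w hw
    rw [Set.Finite.mem_toFinset] at hw
    obtain ⟨v, hv, rfl⟩ := hw
    exact ⟨v, hv, fun i => rfl⟩
  · set C : (Fin d → ℤ) → Set (Fin d → ℝ) := fun w =>
      Set.pi Set.univ (fun i => Set.Ico ((w i : ℝ) / g) ((w i : ℝ) / g + 1 / g)) with hC
    have hCv : ∀ w, volume (C w) = ENNReal.ofReal ((1 / g) ^ d) := by
      intro w
      rw [hC, volume_pi_pi]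
      simp only [Real.volume_Ico, add_sub_cancel_left]
      rw [Finset.prod_const, Finset.card_univ, Fintype.card_fin, ENNReal.ofReal_pow (by positivity)]
    have hsub : V ⊆ ⋃ w ∈ hfin.toFinset, C w := by
      intro v hv
      refine Set.mem_biUnion (x := fun i => ⌊g * v i⌋) ?_ ?_
      · rw [Finset.mem_coe, Set.Finite.mem_toFinset]
        exact ⟨v, hv, rfl⟩
      · rw [hC, Set.mem_univ_pi]
        intro i
        rw [Set.mem_Ico, div_le_iff₀ hg0, ← add_div, lt_div_iff₀ hg0, mul_comm (v i)]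
        exact ⟨Int.floor_le _, Int.lt_floor_add_one _⟩
    have h1 : ENNReal.ofReal lam ≤
        ENNReal.ofReal ((hfin.toFinset.card : ℝ) * (1 / g) ^ d) := by
      calc ENNReal.ofReal lam ≤ volume V := hlam
        _ ≤ volume (⋃ w ∈ hfin.toFinset, C w) := measure_mono hsub
        _ ≤ ∑ w ∈ hfin.toFinset, volume (C w) := measure_biUnion_finset_le _ _
        _ = _ := by
          simp only [hCv]
          rw [Finset.sum_const, nsmul_eq_mul, ENNReal.ofReal_mul (Nat.cast_nonneg _),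
            ENNReal.ofReal_natCast]
    rw [ENNReal.ofReal_le_ofReal_iff (by positivity)] at h1
    rw [one_div, inv_pow, ← div_eq_mul_inv, le_div_iff₀ (by positivity)] at h1
    exact h1

theorem progression (d k : ℕ) (hk : 1 ≤ k) : ∃ C : ℕ, ∀ (K : Set (EuclideanSpace ℝ (Fin (d + 1))))
    (V : Set (Fin d → ℝ)) (lam δ L h t : ℝ), 0 < lam → 0 < δ → 0 < h →
    (∀ v ∈ V, ∀ i, v i ∈ Set.Icc (0 : ℝ) 1) → ENNReal.ofReal lam ≤ volume V →
    (∀ v ∈ V, ∃ a : Fin d → ℝ, ∀ j : ℕ, j ≤ k →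
      pt (fun i => a i + (t + j * h) * v i) (t + j * h) ∈ K) →
    (∀ j : ℕ, j ≤ k → Structured L δ (slice K (t + j * h))) →
    ∃ j : ℕ, j ≤ k ∧ (lam * (h / δ) ^ d) ^ k ≤
      (L ^ 2 * ((k : ℝ) + 1) ^ d) ^ C * ((cells δ (slice K (t + j * h))).ncard : ℝ) ^ (k + 1) := by
  classical
  obtain ⟨C, hC⟩ := prog d k hk
  refine ⟨C, fun K V lam δ L h t hlam hδ hh hV hVlam hseg hstr => ?_⟩
  obtain ⟨𝒲, hW1, hW2⟩ := slopesR V hV hVlam (g := h / δ) (by positivity)
  have hWne : 𝒲.Nonempty := by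
    rw [← Finset.card_pos]
    have h1 : 0 < lam * (h / δ) ^ d := by positivity
    have h2 : (0 : ℝ) < 𝒲.card := lt_of_lt_of_le h1 hW2
    exact_mod_cast h2
  obtain ⟨j₀, -, hj₀⟩ := Finset.exists_max_image (Finset.univ : Finset (Fin (k + 1)))
    (fun j => (cells δ (slice K (t + (j : ℕ) * h))).ncard) Finset.univ_nonempty
  refine ⟨j₀, by omega, ?_⟩
  have h1 := hC δ hδ L ((cells δ (slice K (t + (j₀ : ℕ) * h))).ncard : ℝ)
    (fun j : Fin (k + 1) => slice K (t + (j : ℕ) * h)) (fun j => hstr j (by omega))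
    (fun j => by exact_mod_cast hj₀ j (Finset.mem_univ _)) 𝒲 hWne (fun w hw => ?_)
  · have h2 : (lam * (h / δ) ^ d) ^ k ≤ (𝒲.card : ℝ) ^ k :=
      pow_le_pow_left₀ (by positivity) hW2 _
    refine h2.trans (h1.trans (le_of_eq ?_))
    congr 2
    ring
  · obtain ⟨v, hv, hvw⟩ := hW1 w hw
    obtain ⟨a, ha⟩ := hseg v hv
    refine ⟨fun i => a i + t * v i, fun i => h / δ * v i, hvw, fun j => ?_⟩
    have h4 := ha j (by omega)
    change pt _ _ ∈ K
    convert h4 using 2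
    funext i
    field_simp
    ring

end Pool.Agent.N240.S
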