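import Mathlib
import Pool.Agent.N240.S.Geo

set_option autoImplicit false

/-! # Structured slices: the estimate at one scale -/

open Finset MeasureTheory
open scoped Pointwise ENNReal

namespace Pool.Agent.N240.S

/-- a translate of the grid `δ ℤ` that meets a small set rarely -/
theorem shift (Bad : Set ℝ) {κ δ : ℝ} (hκ : 0 ≤ κ) (hδ : 0 < δ)
    (hBad : volume Bad ≤ ENNReal.ofReal κ) (𝓜 : Finset ℤ) :
    ∃ τ ∈ Set.Ico (0 : ℝ) δ, ∃ B : Finset ℤ, (∀ m ∈ 𝓜, τ + m * δ ∈ Bad → m ∈ B) ∧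
      (B.card : ℝ) ≤ κ / δ := by
  classical
  by_contra hcon
  push Not at hcon
  set Bad' : Set ℝ := toMeasurable volume Bad with hB'
  have hB'm : MeasurableSet Bad' := measurableSet_toMeasurable _ _
  have hB'v : volume Bad' ≤ ENNReal.ofReal κ := by
    rw [hB', measure_toMeasurable]; exact hBad
  set N0 : ℕ := ⌊κ / δ⌋₊ + 1 with hN0
  have hN0' : κ / δ < N0 := by
    rw [hN0]; push_cast; exact Nat.lt_floor_add_one _
  have hlow : ∀ τ ∈ Set.Ico (0 : ℝ) δ, (N0 : ℝ≥0∞) ≤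
      ∑ m ∈ 𝓜, ({τ : ℝ | τ + m * δ ∈ Bad'}).indicator (fun _ => (1 : ℝ≥0∞)) τ := by
    intro τ hτ
    have h1 := hcon τ hτ (𝓜.filter (fun m => τ + m * δ ∈ Bad))
      (fun m hm hmB => Finset.mem_filter.2 ⟨hm, hmB⟩)
    have h2 : N0 ≤ (𝓜.filter (fun m : ℤ => τ + m * δ ∈ Bad)).card := by
      have h3 : ⌊κ / δ⌋₊ < (𝓜.filter (fun m : ℤ => τ + m * δ ∈ Bad)).card := by
        rw [Nat.floor_lt (by positivity)]
        exact h1
      omega
    calc (N0 : ℝ≥0∞) ≤ ((𝓜.filter (fun m : ℤ => τ + m * δ ∈ Bad)).card : ℝ≥0∞) := by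
          exact_mod_cast h2
      _ = ∑ m ∈ 𝓜, (if τ + m * δ ∈ Bad then (1 : ℝ≥0∞) else 0) := by
          rw [Finset.sum_boole]
      _ ≤ _ := by
          refine Finset.sum_le_sum fun m _ => ?_
          by_cases h : τ + m * δ ∈ Bad
          · have h4 : τ ∈ {τ : ℝ | τ + m * δ ∈ Bad'} := subset_toMeasurable _ _ h
            rw [if_pos h, Set.indicator_of_mem h4]
          · rw [if_neg h]; exact zero_le
  have hmeas : ∀ m : ℤ, MeasurableSet {τ : ℝ | τ + m * δ ∈ Bad'} := fun m =>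
    (measurable_id.add_const _) hB'm
  have h5 : (N0 : ℝ≥0∞) * ENNReal.ofReal δ ≤
      ∑ m ∈ 𝓜, volume (Bad' ∩ Set.Ico (m * δ) (m * δ + δ)) := by
    calc (N0 : ℝ≥0∞) * ENNReal.ofReal δ = ∫⁻ _τ in Set.Ico (0 : ℝ) δ, (N0 : ℝ≥0∞) := by
          rw [setLIntegral_const, Real.volume_Ico, sub_zero]
      _ ≤ ∫⁻ τ in Set.Ico (0 : ℝ) δ, ∑ m ∈ 𝓜,
            ({τ : ℝ | τ + m * δ ∈ Bad'}).indicator (fun _ => (1 : ℝ≥0∞)) τ :=
          setLIntegral_mono' measurableSet_Ico hlow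
      _ = ∑ m ∈ 𝓜, ∫⁻ τ in Set.Ico (0 : ℝ) δ,
            ({τ : ℝ | τ + m * δ ∈ Bad'}).indicator (fun _ => (1 : ℝ≥0∞)) τ :=
          lintegral_finsetSum _ fun m _ => measurable_const.indicator (hmeas m)
      _ = ∑ m ∈ 𝓜, volume (Bad' ∩ Set.Ico (m * δ) (m * δ + δ)) := by
          refine Finset.sum_congr rfl fun m _ => ?_
          rw [lintegral_indicator (hmeas m), setLIntegral_const, one_mul,
            Measure.restrict_apply (hmeas m)]
          have h6 : {τ : ℝ | τ + m * δ ∈ Bad'} ∩ Set.Ico 0 δ =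
              (fun τ => τ + m * δ) ⁻¹' (Bad' ∩ Set.Ico (m * δ) (m * δ + δ)) := by
            ext τ
            simp only [Set.mem_inter_iff, Set.mem_ofPred_eq, Set.mem_Ico, Set.mem_preimage]
            constructor
            · rintro ⟨h1, h2, h3⟩
              exact ⟨h1, by linarith, by linarith⟩
            · rintro ⟨h1, h2, h3⟩
              exact ⟨h1, by linarith, by linarith⟩
          rw [h6, measure_preimage_add_right]
  have h7 : ∑ m ∈ 𝓜, volume (Bad' ∩ Set.Ico (m * δ) (m * δ + δ)) ≤ volume Bad' := by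
    rw [← measure_biUnion_finset]
    · exact measure_mono (Set.iUnion₂_subset fun m _ => Set.inter_subset_left)
    · intro m _ m' _ hmm
      rw [Function.onFun, Set.disjoint_left]
      rintro t ⟨_, h1, h2⟩ ⟨_, h3, h4⟩
      apply hmm
      have h8 : (m : ℝ) < m' + 1 := by
        by_contra h
        push Not at h
        nlinarith
      have h9 : (m' : ℝ) < m + 1 := by
        by_contra h
        push Not at h
        nlinarith
      have h10 : m < m' + 1 := by exact_mod_cast h8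
      have h11 : m' < m + 1 := by exact_mod_cast h9
      omega
    · exact fun m _ => hB'm.inter measurableSet_Ico
  have h8 : (N0 : ℝ≥0∞) * ENNReal.ofReal δ ≤ ENNReal.ofReal κ := h5.trans (h7.trans hB'v)
  rw [← ENNReal.ofReal_natCast, ← ENNReal.ofReal_mul (Nat.cast_nonneg _),
    ENNReal.ofReal_le_ofReal_iff hκ] at h8
  rw [div_lt_iff₀ hδ] at hN0'
  linarith

/-- the number of cells met by a set of slopes -/
theorem slopes {d : ℕ} (V : Set (Fin d → ℝ)) (hV : ∀ v ∈ V, ∀ i, v i ∈ Set.Icc (0 : ℝ) 1)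
    {lam : ℝ} (hlam : ENNReal.ofReal lam ≤ volume V) {g : ℕ} (hg : 1 ≤ g) :
    ∃ 𝒲 : Finset (Fin d → ℤ), (∀ w ∈ 𝒲, ∃ v ∈ V, ∀ i, ⌊(g : ℝ) * v i⌋ = w i) ∧
      lam * (g : ℝ) ^ d ≤ 𝒲.card := by
  classical
  have hg0 : (0 : ℝ) < g := by exact_mod_cast hg
  have hfin : ((fun (v : Fin d → ℝ) i => ⌊(g : ℝ) * v i⌋) '' V).Finite := by
    refine Set.Finite.subset
      (Finset.finite_toSet (Fintype.piFinset (fun _ : Fin d => Finset.Icc (0 : ℤ) g))) ?_
    rintro _ ⟨v, hv, rfl⟩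
    rw [Finset.mem_coe, Fintype.mem_piFinset]
    intro i
    have h := hV v hv i
    rw [Finset.mem_Icc]
    constructor
    · rw [Int.le_floor]; push_cast; exact mul_nonneg hg0.le h.1
    · have h2 : (⌊(g : ℝ) * v i⌋ : ℝ) ≤ g := by
        refine (Int.floor_le _).trans ?_
        calc (g : ℝ) * v i ≤ g * 1 := mul_le_mul_of_nonneg_left h.2 hg0.le
          _ = g := mul_one _
      exact_mod_cast h2
  refine ⟨hfin.toFinset, ?_, ?_⟩
  · intro w hw
    rw [Set.Finite.mem_toFinset] at hw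
    obtain ⟨v, hv, rfl⟩ := hw
    exact ⟨v, hv, fun i => rfl⟩
  · set C : (Fin d → ℤ) → Set (Fin d → ℝ) := fun w =>
      Set.pi Set.univ (fun i => Set.Ico ((w i : ℝ) / g) ((w i : ℝ) / g + 1 / g)) with hC
    have hCv : ∀ w, volume (C w) = ENNReal.ofReal ((1 / (g : ℝ)) ^ d) := by
      intro w
      rw [hC, volume_pi_pi]
      simp only [Real.volume_Ico, add_sub_cancel_left]
      rw [Finset.prod_const, Finset.card_univ, Fintype.card_fin, ENNReal.ofReal_pow (by positivity)]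
    have hsub : V ⊆ ⋃ w ∈ hfin.toFinset, C w := by
      intro v hv
      refine Set.mem_biUnion (x := fun i => ⌊(g : ℝ) * v i⌋) ?_ ?_
      · rw [Finset.mem_coe, Set.Finite.mem_toFinset]
        exact ⟨v, hv, rfl⟩
      · rw [hC, Set.mem_univ_pi]
        intro i
        rw [Set.mem_Ico, div_le_iff₀ hg0, ← add_div, lt_div_iff₀ hg0, mul_comm (v i)]
        exact ⟨Int.floor_le _, Int.lt_floor_add_one _⟩
    have h1 : ENNReal.ofReal lam ≤
        ENNReal.ofReal ((hfin.toFinset.card : ℝ) * (1 / (g : ℝ)) ^ d) := by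
      calc ENNReal.ofReal lam ≤ volume V := hlam
        _ ≤ volume (⋃ w ∈ hfin.toFinset, C w) := measure_mono hsub
        _ ≤ ∑ w ∈ hfin.toFinset, volume (C w) := measure_biUnion_finset_le _ _
        _ = _ := by
          simp only [hCv]
          rw [Finset.sum_const, nsmul_eq_mul, ENNReal.ofReal_mul (Nat.cast_nonneg _),
            ENNReal.ofReal_natCast]
    rw [ENNReal.ofReal_le_ofReal_iff (by positivity)] at h1
    rw [one_div, inv_pow, ← div_eq_mul_inv, le_div_iff₀ (by positivity)] at h1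
    exact h1

theorem pigeon {α : Type*} [DecidableEq α] (𝒲 : Finset α) (q : α → ℤ) (Q : ℕ)
    (hq : ∀ w ∈ 𝒲, q w ∈ Finset.Icc (-(Q : ℤ)) Q) :
    ∃ q₀ ∈ Finset.Icc (-(Q : ℤ)) Q, 𝒲.card ≤ (2 * Q + 1) * (𝒲.filter (fun w => q w = q₀)).card := by
  obtain ⟨q₀, hq₀, hmax⟩ := Finset.exists_max_image (Finset.Icc (-(Q : ℤ)) Q)
    (fun q' => (𝒲.filter (fun w => q w = q')).card) ⟨0, by rw [Finset.mem_Icc]; omega⟩
  refine ⟨q₀, hq₀, ?_⟩
  rw [Finset.card_eq_sum_card_fiberwise (f := q) (t := Finset.Icc (-(Q : ℤ)) Q)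
    (fun w hw => by exact_mod_cast hq w hw)]
  calc _ ≤ ∑ _q' ∈ Finset.Icc (-(Q : ℤ)) Q, (𝒲.filter (fun w => q w = q₀)).card :=
        Finset.sum_le_sum hmax
    _ = _ := by
        rw [Finset.sum_const, smul_eq_mul, Int.card_Icc]
        congr 1
        omega

end Pool.Agent.N240.S
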