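import Mathlib
import Pool.Agent.N240.S.Par

set_option autoImplicit false

/-! # Structured slices: one scale -/

open Finset MeasureTheory
open scoped Pointwise ENNReal

namespace Pool.Agent.N240.S

/-- the number of windows -/
noncomputable def QQ (R ρ : ℝ) : ℕ := ⌈4 * (R + 1) / ρ⌉₊ + 1

theorem pt_last {d : ℕ} (x : Fin d → ℝ) (t : ℝ) : pt x t (Fin.last d) = t := by
  simp [pt]

set_option maxHeartbeats 4000000 in
theorem core (d k : ℕ) (hk : 1 ≤ k) (ρ R lam δ M : ℝ) (hρ : 0 < ρ) (hρ1 : ρ ≤ 1)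
    (hlam : 0 < lam) (hδ : 0 < δ) (hδρ : δ ≤ ρ / (16 * k)) (hM : 0 ≤ M)
    (K K' : Set (EuclideanSpace ℝ (Fin (d + 1)))) (hKR : K ⊆ Metric.closedBall 0 R)
    (V : Set (Fin d → ℝ)) (hV : ∀ v ∈ V, ∀ i, v i ∈ Set.Icc (0 : ℝ) 1)
    (hVlam : ENNReal.ofReal lam ≤ volume V)
    (hseg : ∀ v ∈ V, ∃ (a : Fin d → ℝ) (s : ℝ), ∀ t ∈ Set.Icc s (s + ρ),
      pt (fun i => a i + t * v i) t ∈ K) (Bad : Set ℝ)
    (hbad : volume Bad ≤ ENNReal.ofReal (ρ / (64 * (k + 1))))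
    (hH : ∀ t h : ℝ, 0 < h → (∀ j : Fin (k + 1), t + (j : ℕ) * h ∉ Bad) →
      ∀ 𝒲 : Finset (Fin d → ℤ), lam * (ρ / (16 * k * δ)) ^ d / (2 * QQ R ρ + 1) ≤ 𝒲.card →
      (∀ w ∈ 𝒲, ∃ a v : Fin d → ℝ, (∀ i, ⌊h / δ * v i⌋ = w i) ∧
        ∀ j : Fin (k + 1), (fun i => a i + (t + (j : ℕ) * h) * v i) ∈
          slice K (t + (j : ℕ) * h)) →
      ∃ j : Fin (k + 1), (cells δ (slice K' (t + (j : ℕ) * h))).Finite ∧
        M < ((cells δ (slice K' (t + (j : ℕ) * h))).ncard : ℝ)) :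
    ENNReal.ofReal (ρ / (32 * (k + 1)) * M * δ ^ d) ≤
      volume (Metric.thickening (√(d + 1) * δ) K') := by
  classical
  have hk0 : (1 : ℝ) ≤ k := by exact_mod_cast hk
  set N : ℕ := ⌊ρ / (2 * δ)⌋₊ with hN
  set g : ℕ := N / (2 * k) with hg
  -- sizes
  have hδk : 16 * k * δ ≤ ρ := by
    rw [le_div_iff₀ (by positivity)] at hδρ
    linarith
  have hNle : (N : ℝ) ≤ ρ / (2 * δ) := Nat.floor_le (by positivity)
  have hNδ : 2 * (N * δ) ≤ ρ := by
    rw [le_div_iff₀ (by positivity)] at hNle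
    linarith
  have hNlt : ρ / (2 * δ) < N + 1 := Nat.lt_floor_add_one _
  have hNlt' : ρ < (N + 1) * (2 * δ) := by
    rwa [div_lt_iff₀ (by positivity)] at hNlt
  have hN4' : ρ ≤ 4 * (N * δ) := by nlinarith
  have hN4k : 4 * (k : ℝ) ≤ N := by
    by_contra h
    push Not at h
    have h1 : (N : ℝ) * δ < 4 * k * δ := mul_lt_mul_of_pos_right h hδ
    nlinarith
  have hN1 : (1 : ℝ) ≤ N := by linarith
  have hN0 : (0 : ℝ) < N := by linarith
  have hNn : 4 * k ≤ N := by exact_mod_cast hN4k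
  have hg1 : 1 ≤ g := by
    rw [hg, Nat.le_div_iff_mul_le (by omega)]; omega
  have hkg : 2 * k * g ≤ N := by
    rw [hg]; exact Nat.mul_div_le N (2 * k)
  have hglow : N < 2 * k * (g + 1) := by
    rw [hg]; exact Nat.lt_mul_div_succ N (by omega)
  have hgN : (N : ℝ) ≤ 4 * k * g := by
    have h1 : (N : ℝ) < 2 * k * (g + 1) := by exact_mod_cast hglow
    have h2 : (1 : ℝ) ≤ g := by exact_mod_cast hg1
    nlinarith
  have hgδ : ρ / (16 * k * δ) ≤ g := by
    rw [div_le_iff₀ (by positivity)]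
    nlinarith [mul_le_mul_of_nonneg_right hgN hδ.le]
  -- the slopes
  obtain ⟨𝒲, hW1, hW2⟩ := slopes V hV hVlam hg1
  have hsel : ∀ w : Fin d → ℤ, ∃ (v a : Fin d → ℝ) (s : ℝ), w ∈ 𝒲 → (∀ i, ⌊(g : ℝ) * v i⌋ = w i) ∧
      |s| ≤ R ∧ ∀ t ∈ Set.Icc s (s + ρ), pt (fun i => a i + t * v i) t ∈ K := by
    intro w
    by_cases hw : w ∈ 𝒲
    · obtain ⟨v, hv, hvw⟩ := hW1 w hw
      obtain ⟨a, s, has⟩ := hseg v hv
      refine ⟨v, a, s, fun _ => ⟨hvw, ?_, has⟩⟩
      have h1 := hKR (has s ⟨le_rfl, by linarith⟩)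
      rw [mem_closedBall_zero_iff] at h1
      have h2 := PiLp.norm_apply_le (pt (fun i => a i + s * v i) s) (Fin.last d)
      rw [pt_last, Real.norm_eq_abs] at h2
      exact h2.trans h1
    · exact ⟨0, 0, 0, fun h => absurd h hw⟩
  choose v a s hsel using hsel
  have hWne : 𝒲.Nonempty := by
    rw [← Finset.card_pos]
    have h1 : 0 < lam * (g : ℝ) ^ d := by
      have : (0 : ℝ) < g := by exact_mod_cast hg1
      positivity
    have h2 : (0 : ℝ) < 𝒲.card := lt_of_lt_of_le h1 hW2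
    exact_mod_cast h2
  have hR0 : 0 ≤ R := by
    obtain ⟨w, hw⟩ := hWne
    exact (abs_nonneg _).trans (hsel w hw).2.1
  -- the grid
  set Q : ℕ := QQ R ρ with hQ
  set 𝓜 : Finset ℤ := Finset.Icc (-((Q : ℤ) * N)) ((Q + 1) * N) with h𝓜
  obtain ⟨τ, hτ, B, hB1, hB2⟩ := shift Bad
    (κ := ρ / (64 * (k + 1))) (by positivity) hδ hbad 𝓜
  have hδ1 : δ ≤ 1 := by nlinarith
  -- windows
  set q : (Fin d → ℤ) → ℤ := fun w => ⌈(s w - τ) / (δ * N)⌉ with hq
  have hδN : 0 < δ * N := by positivity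
  have hqm : ∀ w ∈ 𝒲, q w ∈ Finset.Icc (-(Q : ℤ)) Q := by
    intro w hw
    have hs := abs_le.1 (hsel w hw).2.1
    have h1 : |(s w - τ) / (δ * N)| ≤ 4 * (R + 1) / ρ := by
      rw [abs_div, abs_of_pos hδN, div_le_div_iff₀ hδN hρ]
      have h2 : |s w - τ| ≤ R + 1 := by
        rw [abs_le]; constructor <;> linarith [hτ.1, hτ.2]
      calc |s w - τ| * ρ ≤ (R + 1) * (4 * (N * δ)) :=
            mul_le_mul h2 hN4' hρ.le (by linarith)
        _ = 4 * (R + 1) * (δ * N) := by ring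
    have h2 : (4 * (R + 1) / ρ) ≤ (⌈4 * (R + 1) / ρ⌉₊ : ℝ) := Nat.le_ceil _
    obtain ⟨h3, h4⟩ := abs_le.1 (h1.trans h2)
    rw [Finset.mem_Icc, hq, hQ, QQ]
    constructor
    · have h5 : (-(⌈4 * (R + 1) / ρ⌉₊ : ℤ) : ℤ) ≤ ⌈(s w - τ) / (δ * N)⌉ := by
        have h6 : ((-(⌈4 * (R + 1) / ρ⌉₊ : ℤ) : ℤ) : ℝ) ≤ (⌈(s w - τ) / (δ * N)⌉ : ℝ) := by
          push_cast
          exact h3.trans (Int.le_ceil _)
        exact_mod_cast h6
      push_cast
      omega
    · have h5 : ⌈(s w - τ) / (δ * N)⌉ ≤ (⌈4 * (R + 1) / ρ⌉₊ : ℤ) := by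
        rw [Int.ceil_le]
        exact_mod_cast h4
      push_cast
      omega
  obtain ⟨q₀, hq₀, hpig⟩ := pigeon 𝒲 q Q hqm
  set 𝒲' := 𝒲.filter (fun w => q w = q₀) with hW'
  have hmem : ∀ w ∈ 𝒲', ∀ m : ℤ, q₀ * N ≤ m → m ≤ (q₀ + 1) * N →
      (τ + m * δ) ∈ Set.Icc (s w) (s w + ρ) := by
    intro w hw m hm1 hm2
    have hwq : q w = q₀ := (Finset.mem_filter.1 hw).2
    have h1 : (s w - τ) / (δ * N) ≤ q₀ := by rw [← hwq]; exact Int.le_ceil _
    have h2 : (q₀ : ℝ) < (s w - τ) / (δ * N) + 1 := by rw [← hwq]; exact Int.ceil_lt_add_one _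
    rw [div_le_iff₀ hδN] at h1
    have h2' : ((q₀ : ℝ) - 1) * (δ * N) < s w - τ := by
      rw [← lt_div_iff₀ hδN]; linarith
    have hm1' : (q₀ : ℝ) * N ≤ m := by exact_mod_cast hm1
    have hm2' : (m : ℝ) ≤ (q₀ + 1) * N := by exact_mod_cast hm2
    have h3 : (q₀ : ℝ) * N * δ ≤ m * δ := mul_le_mul_of_nonneg_right hm1' hδ.le
    have h4 : (m : ℝ) * δ ≤ (q₀ + 1) * N * δ := mul_le_mul_of_nonneg_right hm2' hδ.le
    constructor
    · nlinarith
    · nlinarith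
  have hW'card : lam * (ρ / (16 * k * δ)) ^ d / (2 * QQ R ρ + 1) ≤ 𝒲'.card := by
    rw [div_le_iff₀ (by positivity)]
    have h1 : (𝒲.card : ℝ) ≤ (2 * (Q : ℝ) + 1) * 𝒲'.card := by exact_mod_cast hpig
    calc lam * (ρ / (16 * k * δ)) ^ d ≤ lam * (g : ℝ) ^ d := by
          apply mul_le_mul_of_nonneg_left _ hlam.le
          exact pow_le_pow_left₀ (by positivity) hgδ _
      _ ≤ 𝒲.card := hW2
      _ ≤ _ := h1
      _ = _ := by ring
  have hpos1 : 0 < lam * (ρ / (16 * k * δ)) ^ d / (2 * (QQ R ρ : ℝ) + 1) := by positivity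
  have hW'ne : 𝒲'.Nonempty := by
    rw [← Finset.card_pos]
    have : (0 : ℝ) < 𝒲'.card := hpos1.trans_le hW'card
    exact_mod_cast this
  -- one progression
  have hone : ∀ m : ℤ, q₀ * N ≤ m → m + k * g ≤ (q₀ + 1) * N →
      (∀ j : Fin (k + 1), (τ + (m + (j : ℕ) * g : ℤ) * δ) ∉ Bad) →
      ∃ j : Fin (k + 1), (cells δ (slice K' (τ + (m + (j : ℕ) * g : ℤ) * δ))).Finite ∧
        M < ((cells δ (slice K' (τ + (m + (j : ℕ) * g : ℤ) * δ))).ncard : ℝ) := by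
    intro m hm1 hm2 hstr
    have hg0 : (0 : ℝ) < g := by exact_mod_cast hg1
    have e : ∀ j : ℕ, τ + (m + (j : ℕ) * g : ℤ) * δ = (τ + m * δ) + (j : ℕ) * (g * δ) := by
      intro j; push_cast; ring
    simp only [e] at hstr ⊢
    refine hH (τ + m * δ) (g * δ) (by positivity) hstr 𝒲' hW'card (fun w hw => ?_)
    have hw𝒲 : w ∈ 𝒲 := (Finset.mem_filter.1 hw).1
    refine ⟨a w, v w, fun i => ?_, fun j => ?_⟩
    · rw [mul_div_cancel_right₀ _ hδ.ne']
      exact (hsel w hw𝒲).1 i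
    · have hjk : ((j : ℕ) : ℤ) * g ≤ k * g := by
        apply mul_le_mul_of_nonneg_right _ (by positivity)
        have := j.2
        omega
      have hjg0 : (0 : ℤ) ≤ ((j : ℕ) : ℤ) * g := by positivity
      have h3 := hmem w hw (m + (j : ℕ) * g) (by omega) (by omega)
      rw [e] at h3
      exact (hsel w hw𝒲).2.2 _ h3
  -- heavy heights
  set F : Finset ℤ := (Finset.Icc (q₀ * N) ((q₀ + 1) * N)).filter (fun m : ℤ =>
    (cells δ (slice K' (τ + m * δ))).Finite ∧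
      M < ((cells δ (slice K' (τ + m * δ))).ncard : ℝ)) with hF
  set S : Finset ℤ := Finset.Ico (q₀ * N) (q₀ * N + (N / 2 : ℕ)) with hS
  have hcover : S ⊆ (Finset.range (k + 1)).biUnion (fun j =>
      ((F ∪ B).image (fun m => m - (j : ℤ) * g))) := by
    intro m hm
    rw [hS, Finset.mem_Ico] at hm
    have hkg' : (k : ℤ) * g ≤ (N / 2 : ℕ) := by
      have : k * g ≤ N / 2 := by
        rw [Nat.le_div_iff_mul_le (by norm_num)]
        calc k * g * 2 = 2 * k * g := by ring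
          _ ≤ N := hkg
      exact_mod_cast this
    have hN2 : ((N / 2 : ℕ) : ℤ) * 2 ≤ N := by
      exact_mod_cast Nat.div_mul_le_self N 2
    have hmk : m + k * g ≤ (q₀ + 1) * N := by
      have e : (q₀ + 1) * (N : ℤ) = q₀ * N + N := by ring
      rw [e]
      have h1 := hm.2
      have h2 : ((N / 2 : ℕ) : ℤ) + ((N / 2 : ℕ) : ℤ) ≤ N := by linarith
      linarith
    have hin : ∀ j : ℕ, j ≤ k → (m + (j : ℤ) * g) ∈ Finset.Icc (q₀ * N) ((q₀ + 1) * N) := by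
      intro j hj
      have h1 : (j : ℤ) * g ≤ k * g :=
        mul_le_mul_of_nonneg_right (by exact_mod_cast hj) (by positivity)
      have h2 : (0 : ℤ) ≤ (j : ℤ) * g := by positivity
      rw [Finset.mem_Icc]
      constructor
      · linarith [hm.1]
      · linarith
    rw [Finset.mem_biUnion]
    by_cases hall : ∀ j : Fin (k + 1), (τ + (m + (j : ℕ) * g : ℤ) * δ) ∉ Bad
    · obtain ⟨j, hj⟩ := hone m hm.1 hmk hall
      refine ⟨j, Finset.mem_range.2 j.2, Finset.mem_image.2 ⟨m + (j : ℕ) * g, ?_, by ring⟩⟩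
      rw [Finset.mem_union]
      left
      rw [hF, Finset.mem_filter]
      exact ⟨hin j (by omega), hj⟩
    · push Not at hall
      obtain ⟨j, hj⟩ := hall
      refine ⟨j, Finset.mem_range.2 j.2, Finset.mem_image.2 ⟨m + (j : ℕ) * g, ?_, by ring⟩⟩
      rw [Finset.mem_union]
      right
      apply hB1 _ _ hj
      have h1 := Finset.mem_Icc.1 (hin j (by omega))
      have h2 := Finset.mem_Icc.1 hq₀
      rw [h𝓜, Finset.mem_Icc]
      have hNz : (0 : ℤ) ≤ N := by positivity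
      constructor
      · have h3 : -(Q : ℤ) * N ≤ q₀ * N := mul_le_mul_of_nonneg_right h2.1 hNz
        linarith [h1.1]
      · have h3 : (q₀ + 1) * (N : ℤ) ≤ (Q + 1) * N :=
          mul_le_mul_of_nonneg_right (by linarith [h2.2]) hNz
        linarith [h1.2]
  have hScard : (S.card : ℝ) ≤ (k + 1) * (F.card + ρ / (64 * (k + 1)) / δ) := by
    have h1 : S.card ≤ (k + 1) * (F ∪ B).card := by
      calc S.card ≤ _ := Finset.card_le_card hcover
        _ ≤ (Finset.range (k + 1)).card * (F ∪ B).card :=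
            Finset.card_biUnion_le_card_mul _ _ _ fun j _ => Finset.card_image_le
        _ = _ := by rw [Finset.card_range]
    have h2 : (S.card : ℝ) ≤ (k + 1) * ((F ∪ B).card : ℝ) := by exact_mod_cast h1
    refine h2.trans ?_
    apply mul_le_mul_of_nonneg_left _ (by positivity)
    have h3 : ((F ∪ B).card : ℝ) ≤ F.card + B.card := by exact_mod_cast Finset.card_union_le F B
    linarith
  have hFcard : ρ / (32 * (k + 1)) ≤ F.card * δ := by
    have h1 : (S.card : ℝ) = ((N / 2 : ℕ) : ℝ) := by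
      rw [hS, Int.card_Ico, add_sub_cancel_left, Int.toNat_natCast]
    have h2 : (N : ℝ) < 2 * ((N / 2 : ℕ) : ℝ) + 2 := by
      have : N < 2 * (N / 2) + 2 := by omega
      exact_mod_cast this
    have h3 : ((k : ℝ) + 1) * (F.card + ρ / (64 * (k + 1)) / δ) =
        (k + 1) * F.card + ρ / (64 * δ) := by
      field_simp
    rw [h1, h3] at hScard
    have h4 : ρ / (64 * δ) * δ = ρ / 64 := by field_simp
    have h5 : ((N / 2 : ℕ) : ℝ) * δ ≤ (k + 1) * (F.card * δ) + ρ / 64 := by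
      calc ((N / 2 : ℕ) : ℝ) * δ ≤ ((k + 1) * F.card + ρ / (64 * δ)) * δ :=
            mul_le_mul_of_nonneg_right hScard hδ.le
        _ = (k + 1) * (F.card * δ) + ρ / (64 * δ) * δ := by ring
        _ = _ := by rw [h4]
    have h6 : (N : ℝ) * δ < 2 * (((N / 2 : ℕ) : ℝ) * δ) + 2 * δ := by
      nlinarith [mul_lt_mul_of_pos_right h2 hδ]
    have h7 : 16 * δ ≤ ρ := by nlinarith
    rw [div_le_iff₀ (by positivity)]
    have h8 : (F.card : ℝ) * δ * (32 * (k + 1)) = 32 * ((k + 1) * (F.card * δ)) := by ring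
    rw [h8]
    linarith
  have hvol := vol_lower (τ := τ) hδ K' F M (fun m hm => by
    rw [hF, Finset.mem_filter] at hm
    exact ⟨hm.2.1, hm.2.2.le⟩)
  refine le_trans (ENNReal.ofReal_le_ofReal ?_) hvol
  calc ρ / (32 * (k + 1)) * M * δ ^ d ≤ (F.card * δ) * M * δ ^ d := by
        apply mul_le_mul_of_nonneg_right _ (by positivity)
        exact mul_le_mul_of_nonneg_right hFcard hM
    _ = _ := by ring

end Pool.Agent.N240.S
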