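import Mathlib
import Pool.Agent.N240.S.Core

set_option autoImplicit false

/-! # Structured slices: one scale -/

open Finset MeasureTheory
open scoped Pointwise ENNReal

namespace Pool.Agent.N240.S

theorem one (d k : ℕ) (hk : 1 ≤ k) : ∃ C : ℕ, ∀ (ρ R lam δ L M : ℝ), 0 < ρ → ρ ≤ 1 → 0 < lam →
    0 < δ → δ ≤ ρ / (16 * k) → 0 ≤ M → ∀ K : Set (EuclideanSpace ℝ (Fin (d + 1))),
    K ⊆ Metric.closedBall 0 R → ∀ V : Set (Fin d → ℝ), (∀ v ∈ V, ∀ i, v i ∈ Set.Icc (0 : ℝ) 1) →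
    ENNReal.ofReal lam ≤ volume V →
    (∀ v ∈ V, ∃ (a : Fin d → ℝ) (s : ℝ), ∀ t ∈ Set.Icc s (s + ρ),
      pt (fun i => a i + t * v i) t ∈ K) →
    volume {t : ℝ | ¬ Structured L δ (slice K t)} ≤ ENNReal.ofReal (ρ / (64 * (k + 1))) →
    (L * (L * ((k : ℝ) + 1) ^ d)) ^ C * M ^ (k + 1) <
      (lam * (ρ / (16 * k * δ)) ^ d / (2 * QQ R ρ + 1)) ^ k →
    ENNReal.ofReal (ρ / (32 * (k + 1)) * M * δ ^ d) ≤
      volume (Metric.thickening (√(d + 1) * δ) K) := by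
  obtain ⟨C, hC⟩ := prog d k hk
  refine ⟨C, ?_⟩
  intro ρ R lam δ L M hρ hρ1 hlam hδ hδρ hM K hKR V hV hVlam hseg hbad hnum
  have hk0 : (1 : ℝ) ≤ k := by exact_mod_cast hk
  refine core d k hk ρ R lam δ M hρ hρ1 hlam hδ hδρ hM K K hKR V hV hVlam hseg _ hbad ?_
  intro t h hh hgood 𝒲 hcard hw
  have hgood' : ∀ j : Fin (k + 1), Structured L δ (slice K (t + (j : ℕ) * h)) := by
    intro j
    by_contra hcon
    exact hgood j hcon
  have hpos1 : 0 < lam * (ρ / (16 * k * δ)) ^ d / (2 * (QQ R ρ : ℝ) + 1) := by positivity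
  have hne : 𝒲.Nonempty := by
    rw [← Finset.card_pos]
    have : (0 : ℝ) < 𝒲.card := hpos1.trans_le hcard
    exact_mod_cast this
  by_contra hcon
  push Not at hcon
  have h1 := hC δ hδ L M (fun j : Fin (k + 1) => slice K (t + (j : ℕ) * h)) hgood'
    (fun j => hcon j (hgood' j).finite) 𝒲 hne (fun w hw' => ?_)
  · have h2 : (lam * (ρ / (16 * k * δ)) ^ d / (2 * QQ R ρ + 1)) ^ k ≤ (𝒲.card : ℝ) ^ k :=
      pow_le_pow_left₀ hpos1.le hcard _
    linarith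
  · obtain ⟨a, v, hv1, hv2⟩ := hw w hw'
    refine ⟨fun i => a i + t * v i, fun i => h / δ * v i, hv1, fun j => ?_⟩
    convert hv2 j using 1
    funext i
    field_simp
    ring

end Pool.Agent.N240.S
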