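import Mathlib
import Pool.Agent.N240.S.One

set_option autoImplicit false

/-! # Structured slices: the exponents, Kakeya sets -/

open Finset MeasureTheory
open scoped Pointwise ENNReal

namespace Pool.Agent.N240.S

theorem trivial_bound {d : ℕ} {K : Set (EuclideanSpace ℝ (Fin (d + 1)))} {p} (hp : p ∈ K)
    {δ₀ δ : ℝ} (hδ : δ₀ ≤ δ) :
    volume (Metric.ball (0 : EuclideanSpace ℝ (Fin (d + 1))) δ₀) ≤
      volume (Metric.thickening δ K) := by
  have h1 : volume (Metric.ball p δ₀) = volume (Metric.ball (0 : EuclideanSpace ℝ (Fin (d + 1))) δ₀) := by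
    rw [Measure.addHaar_ball_center]
  rw [← h1]
  exact measure_mono ((Metric.ball_subset_ball hδ).trans (Metric.ball_subset_thickening hp δ))

theorem quant (d : ℕ) (hd : 1 ≤ d) (ε : ℝ) (hε : 0 < ε) : ∃ η : ℝ, 0 < η ∧ ∀ ρ : ℝ, 0 < ρ → ρ ≤ 1 →
    ∃ κ : ℝ, 0 < κ ∧ ∀ R lam : ℝ, 0 < lam → ∃ c : ℝ, 0 < c ∧
    ∀ K : Set (EuclideanSpace ℝ (Fin (d + 1))), K ⊆ Metric.closedBall 0 R →
    ∀ V : Set (Fin d → ℝ), (∀ v ∈ V, ∀ i, v i ∈ Set.Icc (0 : ℝ) 1) →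
    ENNReal.ofReal lam ≤ volume V →
    (∀ v ∈ V, ∃ (a : Fin d → ℝ) (s : ℝ), ∀ t ∈ Set.Icc s (s + ρ),
      pt (fun i => a i + t * v i) t ∈ K) →
    ∀ δ : ℝ, 0 < δ → δ < 1 →
    volume {t : ℝ | ¬ Structured (δ ^ (-η)) δ (slice K t)} ≤ ENNReal.ofReal κ →
    ENNReal.ofReal (c * δ ^ ε) ≤ volume (Metric.thickening (√(d + 1) * δ) K) := by
  set k : ℕ := ⌈2 * (d : ℝ) / ε⌉₊ with hk
  have hd0 : (1 : ℝ) ≤ d := by exact_mod_cast hd
  have hkε : 2 * (d : ℝ) ≤ k * ε := by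
    rw [← div_le_iff₀ hε]; exact Nat.le_ceil _
  have hk1 : 1 ≤ k := by
    rw [hk, Nat.one_le_ceil_iff]; positivity
  have hk0 : (1 : ℝ) ≤ k := by exact_mod_cast hk1
  obtain ⟨C, hC⟩ := one d k hk1
  refine ⟨ε / (4 * (C + 1)), by positivity, fun ρ hρ hρ1 => ⟨ρ / (64 * (k + 1)), by positivity,
    fun R lam hlam => ?_⟩⟩
  set η : ℝ := ε / (4 * (C + 1)) with hη
  have hηC : 2 * η * C ≤ ε / 2 := by
    have h1 : 2 * η * C = ε / 2 * (C / (C + 1)) := by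
      rw [hη]; field_simp; ring
    rw [h1]
    have h2 : (C : ℝ) / (C + 1) ≤ 1 := by
      rw [div_le_one (by positivity)]; linarith
    calc ε / 2 * (C / (C + 1)) ≤ ε / 2 * 1 := mul_le_mul_of_nonneg_left h2 (by positivity)
      _ = ε / 2 := mul_one _
  set c₁ : ℝ := (lam * (ρ / (16 * k)) ^ d / (2 * QQ R ρ + 1)) ^ k with hc₁
  have hc₁0 : 0 < c₁ := by positivity
  set G : ℝ := (((k : ℝ) + 1) ^ d) ^ C with hG
  have hG0 : 0 < G := by positivity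
  set c₂ : ℝ := min 1 (c₁ / (2 * G)) with hc₂
  have hc₂0 : 0 < c₂ := lt_min one_pos (by positivity)
  have hc₂1 : c₂ ≤ 1 := min_le_left _ _
  set δ₀ : ℝ := ρ / (16 * k) with hδ₀
  have hδ₀0 : 0 < δ₀ := by positivity
  set c₄ : ℝ := (volume (Metric.ball (0 : EuclideanSpace ℝ (Fin (d + 1))) δ₀)).toReal with hc₄
  have hc₄0 : 0 < c₄ := ENNReal.toReal_pos (Metric.measure_ball_pos _ _ hδ₀0).ne'
    measure_ball_lt_top.ne
  refine ⟨min (ρ / (32 * (k + 1)) * c₂) c₄, lt_min (by positivity) hc₄0, ?_⟩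
  intro K hKR V hV hVlam hseg δ hδ hδ1 hbad
  rcases le_or_gt δ δ₀ with hle | hgt
  · have hx : 0 < δ ^ (ε - d) := Real.rpow_pos_of_pos hδ _
    have key := hC ρ R lam δ (δ ^ (-η)) (c₂ * δ ^ (ε - (d : ℝ))) hρ hρ1 hlam hδ hle (by positivity)
      K hKR V hV hVlam hseg hbad ?_
    · refine le_trans (ENNReal.ofReal_le_ofReal ?_) key
      calc min (ρ / (32 * (k + 1)) * c₂) c₄ * δ ^ ε ≤ (ρ / (32 * (k + 1)) * c₂) * δ ^ ε :=
            mul_le_mul_of_nonneg_right (min_le_left _ _) (Real.rpow_nonneg hδ.le _)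
        _ = ρ / (32 * (k + 1)) * (c₂ * δ ^ (ε - (d : ℝ))) * δ ^ d := by
            have : δ ^ ε = δ ^ (ε - (d : ℝ)) * δ ^ d := by
              rw [← Real.rpow_natCast δ d, ← Real.rpow_add hδ]; congr 1; ring
            rw [this]; ring
    · have e1 : (lam * (ρ / (16 * k * δ)) ^ d / (2 * QQ R ρ + 1)) ^ k =
          c₁ * δ ^ (-((d : ℝ) * k)) := by
        have h1 : ρ / (16 * k * δ) = ρ / (16 * k) * δ⁻¹ := by field_simp
        have h2 : δ ^ (-((d : ℝ) * k)) = (δ⁻¹ ^ d) ^ k := by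
          rw [Real.rpow_neg hδ.le, ← pow_mul, ← Nat.cast_mul, Real.rpow_natCast, inv_pow]
        rw [h1, h2, hc₁, ← mul_pow, mul_pow (ρ / (16 * k)) δ⁻¹ d]
        congr 1
        ring
      have e2 : (δ ^ (-η) * (δ ^ (-η) * ((k : ℝ) + 1) ^ d)) ^ C = δ ^ (-(2 * η * C)) * G := by
        have h1 : δ ^ (-(2 * η * C)) = (δ ^ (-η) * δ ^ (-η)) ^ C := by
          rw [← Real.rpow_add hδ, ← Real.rpow_natCast (δ ^ (-η + -η)) C, ← Real.rpow_mul hδ.le]
          congr 1; ring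
        rw [h1, hG, ← mul_pow, ← mul_assoc]
      have e3 : (c₂ * δ ^ (ε - (d : ℝ))) ^ (k + 1) = c₂ ^ (k + 1) * δ ^ ((ε - d) * (k + 1)) := by
        rw [mul_pow, ← Real.rpow_natCast (δ ^ (ε - (d : ℝ))) (k + 1), ← Real.rpow_mul hδ.le]
        push_cast
        rfl
      rw [e1, e2, e3]
      have h3 : c₂ ^ (k + 1) ≤ c₁ / (2 * G) := by
        calc c₂ ^ (k + 1) ≤ c₂ ^ 1 := pow_le_pow_of_le_one hc₂0.le hc₂1 (by omega)
          _ = c₂ := pow_one _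
          _ ≤ _ := min_le_right _ _
      have h4 : δ ^ (-(2 * η * C)) * δ ^ ((ε - d) * (k + 1)) ≤ δ ^ (-((d : ℝ) * k)) := by
        rw [← Real.rpow_add hδ]
        apply Real.rpow_le_rpow_of_exponent_ge hδ hδ1.le
        have : 0 ≤ ε * k / 2 - d := by linarith
        nlinarith
      have h5 : 0 < δ ^ (-((d : ℝ) * k)) := Real.rpow_pos_of_pos hδ _
      calc δ ^ (-(2 * η * C)) * G * (c₂ ^ (k + 1) * δ ^ ((ε - d) * (k + 1)))
          = (G * c₂ ^ (k + 1)) * (δ ^ (-(2 * η * C)) * δ ^ ((ε - d) * (k + 1))) := by ring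
        _ ≤ (G * (c₁ / (2 * G))) * δ ^ (-((d : ℝ) * k)) := by
            apply mul_le_mul _ h4 (by positivity) (by positivity)
            exact mul_le_mul_of_nonneg_left h3 hG0.le
        _ = c₁ / 2 * δ ^ (-((d : ℝ) * k)) := by
            congr 1; field_simp
        _ < c₁ * δ ^ (-((d : ℝ) * k)) := by
            apply mul_lt_mul_of_pos_right _ h5
            linarith
  · have hVne : V.Nonempty := by
      rw [Set.nonempty_iff_ne_empty]
      rintro rfl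
      rw [measure_empty] at hVlam
      rw [nonpos_iff_eq_zero, ENNReal.ofReal_eq_zero] at hVlam
      linarith
    obtain ⟨v, hv⟩ := hVne
    obtain ⟨a, s, has⟩ := hseg v hv
    have hp := has s ⟨le_rfl, by linarith⟩
    have h1 : δ₀ ≤ √(d + 1) * δ := by
      have h2 : 1 ≤ √((d : ℝ) + 1) := by
        rw [Real.one_le_sqrt]; linarith
      nlinarith
    refine le_trans ?_ (trivial_bound hp h1)
    rw [← ENNReal.ofReal_toReal (measure_ball_lt_top (μ := volume)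
      (x := (0 : EuclideanSpace ℝ (Fin (d + 1)))) (r := δ₀)).ne]
    apply ENNReal.ofReal_le_ofReal
    calc min (ρ / (32 * (k + 1)) * c₂) c₄ * δ ^ ε ≤ c₄ * 1 := by
          apply mul_le_mul (min_le_right _ _) _ (Real.rpow_nonneg hδ.le _) hc₄0.le
          exact Real.rpow_le_one hδ.le hδ1.le hε.le
      _ = c₄ := mul_one _

/-- the slices of `K` are additively structured at small scales -/
def AsympStructured {d : ℕ} (K : Set (EuclideanSpace ℝ (Fin (d + 1)))) : Prop :=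
  ∀ η κ : ℝ, 0 < η → 0 < κ → ∃ δ₀ : ℝ, 0 < δ₀ ∧ ∀ δ : ℝ, 0 < δ → δ < δ₀ →
    volume {t : ℝ | ¬ Structured (δ ^ (-η)) δ (slice K t)} ≤ ENNReal.ofReal κ

theorem segs {d : ℕ} {K : Set (EuclideanSpace ℝ (Fin (d + 1)))}
    (hK : ∀ ω : EuclideanSpace ℝ (Fin (d + 1)), ‖ω‖ = 1 → ∃ a : EuclideanSpace ℝ (Fin (d + 1)),
      ∀ t ∈ Set.Icc (0 : ℝ) 1, a + t • ω ∈ K) (v : Fin d → ℝ)
    (hv : ∀ i, v i ∈ Set.Icc (0 : ℝ) 1) :
    ∃ (a : Fin d → ℝ) (s : ℝ), ∀ t ∈ Set.Icc s (s + 1 / √((d : ℝ) + 1)),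
      pt (fun i => a i + t * v i) t ∈ K := by
  set e : EuclideanSpace ℝ (Fin (d + 1)) := pt v 1 with he
  have hel : e (Fin.last d) = 1 := pt_last v 1
  have hec : ∀ i : Fin d, e i.castSucc = v i := fun i => by simp [he, pt]
  have hn : ‖e‖ ≤ √((d : ℝ) + 1) := by
    rw [EuclideanSpace.norm_eq]
    apply Real.sqrt_le_sqrt
    rw [Fin.sum_univ_castSucc, hel]
    have h1 : ∑ i : Fin d, ‖e i.castSucc‖ ^ 2 ≤ ∑ _i : Fin d, (1 : ℝ) := by
      refine Finset.sum_le_sum fun i _ => ?_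
      rw [hec, Real.norm_eq_abs, sq_abs]
      have := hv i
      nlinarith [this.1, this.2]
    rw [Finset.sum_const, Finset.card_univ, Fintype.card_fin, nsmul_eq_mul, mul_one] at h1
    simpa using h1
  have hn0 : 0 < ‖e‖ := by
    rw [norm_pos_iff]
    intro h
    rw [h] at hel
    simp at hel
  obtain ⟨a, ha⟩ := hK (‖e‖⁻¹ • e) (by rw [norm_smul, norm_inv, norm_norm, inv_mul_cancel₀ hn0.ne'])
  refine ⟨fun i => a i.castSucc - a (Fin.last d) * v i, a (Fin.last d), fun t ht => ?_⟩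
  have h1 := ha ((t - a (Fin.last d)) * ‖e‖) ⟨by
      apply mul_nonneg _ hn0.le
      linarith [ht.1], by
      calc (t - a (Fin.last d)) * ‖e‖ ≤ (1 / √((d : ℝ) + 1)) * √((d : ℝ) + 1) := by
            apply mul_le_mul _ hn hn0.le (by positivity)
            linarith [ht.2]
        _ = 1 := by
            rw [one_div, inv_mul_cancel₀]
            positivity⟩
  convert h1 using 1
  rw [smul_smul, mul_assoc, mul_inv_cancel₀ hn0.ne', mul_one]
  ext i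
  refine Fin.lastCases ?_ (fun i => ?_) i
  · rw [pt_last, PiLp.add_apply, PiLp.smul_apply, hel, smul_eq_mul]; ring
  · rw [PiLp.add_apply, PiLp.smul_apply, hec, smul_eq_mul]
    simp only [pt]
    rw [PiLp.toLp_apply, Fin.snoc_castSucc]
    ring

theorem kakeya (d : ℕ) (hd : 1 ≤ d) (K : Set (EuclideanSpace ℝ (Fin (d + 1)))) (hKb : Bornology.IsBounded K)
    (hK : ∀ ω : EuclideanSpace ℝ (Fin (d + 1)), ‖ω‖ = 1 → ∃ a : EuclideanSpace ℝ (Fin (d + 1)),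
      ∀ t ∈ Set.Icc (0 : ℝ) 1, a + t • ω ∈ K) (hstr : AsympStructured K) (ε : ℝ) (hε : 0 < ε) :
    ∃ c : ℝ, 0 < c ∧ ∀ δ : ℝ, 0 < δ → δ < 1 →
      ENNReal.ofReal (c * δ ^ ε) ≤ volume (Metric.thickening δ K) := by
  obtain ⟨η, hη, h⟩ := quant d hd ε hε
  have hs1 : 1 ≤ √((d : ℝ) + 1) := by
    rw [Real.one_le_sqrt]; linarith [Nat.cast_nonneg (α := ℝ) d]
  have hs0 : 0 < √((d : ℝ) + 1) := by linarith
  obtain ⟨κ, hκ, h⟩ := h (1 / √((d : ℝ) + 1)) (by positivity) (by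
    rw [div_le_one hs0]; exact hs1)
  obtain ⟨R, hR⟩ := hKb.subset_closedBall 0
  obtain ⟨c, hc, h⟩ := h R 1 one_pos
  obtain ⟨δ₀, hδ₀, hst⟩ := hstr η κ hη hκ
  set V : Set (Fin d → ℝ) := Set.Icc 0 1 with hV
  have hVv : volume V = 1 := by
    rw [hV, Real.volume_Icc_pi]; simp
  have hmem : ∀ v ∈ V, ∀ i, v i ∈ Set.Icc (0 : ℝ) 1 := fun v hv i => ⟨hv.1 i, hv.2 i⟩
  have h := h K hR V hmem (by rw [hVv]; simp) (fun v hv => segs hK v (hmem v hv))
  obtain ⟨p, hp⟩ : K.Nonempty := by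
    obtain ⟨a, ha⟩ := hK (EuclideanSpace.single (Fin.last d) 1) (by simp)
    exact ⟨_, ha 0 ⟨le_rfl, zero_le_one⟩⟩
  set c₄ : ℝ := (volume (Metric.ball (0 : EuclideanSpace ℝ (Fin (d + 1))) δ₀)).toReal with hc₄
  have hc₄0 : 0 < c₄ := ENNReal.toReal_pos (Metric.measure_ball_pos _ _ hδ₀).ne'
    measure_ball_lt_top.ne
  refine ⟨min (c * (1 / √((d : ℝ) + 1)) ^ ε) c₄, lt_min (by positivity) hc₄0, ?_⟩
  intro δ hδ hδ1
  rcases lt_or_ge δ δ₀ with hlt | hge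
  · have hδ' : 0 < δ / √((d : ℝ) + 1) := by positivity
    have hle : δ / √((d : ℝ) + 1) ≤ δ := div_le_self hδ.le hs1
    have h1 := h (δ / √((d : ℝ) + 1)) hδ' (by linarith) (hst _ hδ' (by linarith))
    rw [mul_div_cancel₀ _ hs0.ne'] at h1
    refine le_trans (ENNReal.ofReal_le_ofReal ?_) h1
    calc min (c * (1 / √((d : ℝ) + 1)) ^ ε) c₄ * δ ^ ε ≤ (c * (1 / √((d : ℝ) + 1)) ^ ε) * δ ^ ε :=
          mul_le_mul_of_nonneg_right (min_le_left _ _) (Real.rpow_nonneg hδ.le _)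
      _ = c * (δ / √((d : ℝ) + 1)) ^ ε := by
          rw [mul_assoc, ← Real.mul_rpow (by positivity) hδ.le]
          congr 2
          ring
  · refine le_trans ?_ (trivial_bound hp hge)
    rw [← ENNReal.ofReal_toReal (measure_ball_lt_top (μ := volume)
      (x := (0 : EuclideanSpace ℝ (Fin (d + 1)))) (r := δ₀)).ne]
    apply ENNReal.ofReal_le_ofReal
    calc min (c * (1 / √((d : ℝ) + 1)) ^ ε) c₄ * δ ^ ε ≤ c₄ * 1 := by
          apply mul_le_mul (min_le_right _ _) _ (Real.rpow_nonneg hδ.le _) hc₄0.le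
          exact Real.rpow_le_one hδ.le hδ1.le hε.le
      _ = c₄ := mul_one _

end Pool.Agent.N240.S
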