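import Mathlib
import Pool.Agent.TH539.StrProjMain
import Pool.Agent.TH539.StrProjSharp

set_option autoImplicit false

/-! # Sumsets of projections -/

open Finset
open scoped Pointwise

namespace Pool.Agent.N240.Proj

open Pool.Agent.H217R3.AK (proj projInf)
open Pool.Agent.TH539.StrProj (pp ph pinf Structured main1 main3)

/-- the `m`-fold sumset `P + ⋯ + P` -/
def sums : ℕ → Finset ℚ → Finset ℚ
  | 0, _ => {0}
  | m + 1, P => sums m P + P

/-- the largest size of the `m`-fold sumset of a projection of `A` with slope `∞` or in `S` -/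
def bigSum (m : ℕ) (S : Finset ℚ) (A : Finset (ℤ × ℤ)) : ℕ :=
  max (sums m (projInf A)).card (S.sup fun r => (sums m (proj r A)).card)

theorem sums_rec (m : ℕ) (P : Finset ℚ) : sums m P = nsmulRec m P := by
  induction m with
  | zero => rfl
  | succ m ih => rw [Pool.Agent.TH539.StrProj.rec_succ, ← ih]; rfl

theorem sums_one (P : Finset ℚ) : sums 1 P = P := by
  change ({0} : Finset ℚ) + P = P
  exact zero_add P

theorem sums_add (P : Finset ℚ) (m n : ℕ) : sums (m + n) P = sums m P + sums n P := by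
  induction n with
  | zero => change sums m P = sums m P + ({0} : Finset ℚ); exact (add_zero _).symm
  | succ n ih =>
    change sums (m + n) P + P = sums m P + (sums n P + P)
    rw [ih, add_assoc]

theorem sums_nonempty {P : Finset ℚ} (hP : P.Nonempty) (m : ℕ) : (sums m P).Nonempty := by
  induction m with
  | zero => exact singleton_nonempty _
  | succ n ih => exact ih.add hP

theorem sums_smul {P : Finset ℚ} {x : ℚ} (hx : x ∈ P) (m : ℕ) : (m : ℚ) * x ∈ sums m P := by
  induction m with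
  | zero => rw [Nat.cast_zero, zero_mul]; exact mem_singleton_self _
  | succ n ih =>
    have := add_mem_add ih hx
    rw [Nat.cast_succ, add_mul, one_mul]
    exact this

theorem upper (S : Finset ℚ) (hS : (-1 : ℚ) ∉ S) (hne : S.Nonempty) (ε : ℝ) (hε : 0 < ε) :
    ∃ m : ℕ, 1 ≤ m ∧ ∀ A : Finset (ℤ × ℤ),
      ((proj (-1) A).card : ℝ) ≤ (bigSum m S A : ℝ) ^ (1 + 1 / (S.card : ℝ) + ε) := by
  classical
  obtain ⟨C, hC⟩ := main1 S hS
  set k : ℕ := S.card with hk
  have hk1 : 1 ≤ k := hne.card_pos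
  have hk0 : (0 : ℝ) < k := by exact_mod_cast hk1
  set η : ℝ := ε / (C + 1) with hη
  have hη0 : 0 < η := by positivity
  have hηC : η * C ≤ ε := by
    rw [hη, div_mul_eq_mul_div, div_le_iff₀ (by positivity)]
    nlinarith
  set I : ℕ := ⌈((k : ℝ) + 1) / η⌉₊ with hI
  have hIη : (k : ℝ) + 1 ≤ η * I := by
    have := Nat.le_ceil (((k : ℝ) + 1) / η)
    rw [div_le_iff₀ hη0] at this
    rw [mul_comm]; exact this
  have hI1 : 1 ≤ I := by
    rw [hI, Nat.one_le_ceil_iff]; positivity
  refine ⟨2 ^ I, Nat.one_le_two_pow, fun A => ?_⟩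
  rcases A.eq_empty_or_nonempty with rfl | hA
  · have : (proj (-1) (∅ : Finset (ℤ × ℤ))).card = 0 := rfl
    rw [this, Nat.cast_zero]
    positivity
  -- the projections
  set X : Option S → ℕ → Finset ℚ := fun r i => sums (2 ^ i) (A.image (pp S r)) with hX
  have hXne : ∀ r i, (X r i).Nonempty := fun r i => sums_nonempty (hA.image _) _
  have hXs : ∀ r i, X r (i + 1) = X r i + X r i := by
    intro r i
    simp only [hX]
    rw [pow_succ, mul_two, sums_add]
  have hmono : ∀ r i, (X r i).card ≤ (X r (i + 1)).card := by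
    intro r i
    rw [hXs]
    exact Finset.card_le_card_add_right (hXne r i)
  have hmono' : ∀ r i, i ≤ I → (X r i).card ≤ (X r I).card := by
    intro r i hi
    exact monotone_nat_of_le_succ (f := fun j => (X r j).card) (hmono r) hi
  set M : ℝ := (bigSum (2 ^ I) S A : ℝ) with hM
  have hXM : ∀ r, ((X r I).card : ℝ) ≤ M := by
    intro r
    rw [hM]
    have : (X r I).card ≤ bigSum (2 ^ I) S A := by
      unfold bigSum
      cases r with
      | none => exact le_max_left _ _
      | some r =>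
        refine le_trans ?_ (le_max_right _ _)
        exact Finset.le_sup (f := fun r => (sums (2 ^ I) (proj r A)).card) r.2
    exact_mod_cast this
  have hM1 : 1 ≤ M := by
    refine le_trans ?_ (hXM none)
    exact_mod_cast (hXne none I).card_pos
  have hM0 : 0 < M := by linarith
  have hK1 : 1 ≤ M ^ η := Real.one_le_rpow hM1 hη0.le
  have hcardι : Fintype.card (Option S) = k + 1 := by
    rw [Fintype.card_option, Fintype.card_coe]
  -- pigeonhole
  have hex : ∃ i < I, ∀ r, ((X r (i + 1)).card : ℝ) ≤ M ^ η * (X r i).card := by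
    by_contra hcon
    push Not at hcon
    have hstep : ∀ i < I, M ^ η * ∏ r, ((X r i).card : ℝ) < ∏ r, ((X r (i + 1)).card : ℝ) := by
      intro i hi
      obtain ⟨r₀, hr₀⟩ := hcon i hi
      rw [← Finset.mul_prod_erase univ _ (mem_univ r₀), ← Finset.mul_prod_erase univ _ (mem_univ r₀),
        ← mul_assoc]
      have h1 : ∏ r ∈ univ.erase r₀, ((X r i).card : ℝ) ≤
          ∏ r ∈ univ.erase r₀, ((X r (i + 1)).card : ℝ) :=
        Finset.prod_le_prod (fun _ _ => Nat.cast_nonneg _)
          (fun r _ => by exact_mod_cast hmono r i)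
      have h2 : 0 < ∏ r ∈ univ.erase r₀, ((X r i).card : ℝ) :=
        Finset.prod_pos fun r _ => by exact_mod_cast (hXne r i).card_pos
      exact mul_lt_mul hr₀ h1 h2 (Nat.cast_nonneg _)
    have hprod : ∀ i ≤ I, (M ^ η) ^ i ≤ ∏ r, ((X r i).card : ℝ) := by
      intro i
      induction i with
      | zero =>
        intro _
        rw [pow_zero]
        have : ∏ _r : Option S, (1 : ℝ) ≤ ∏ r, ((X r 0).card : ℝ) :=
          Finset.prod_le_prod (fun _ _ => zero_le_one)
            (fun r _ => by exact_mod_cast (hXne r 0).card_pos)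
        simpa using this
      | succ i ih =>
        intro hi
        have h1 := ih (by omega)
        rw [pow_succ, mul_comm]
        exact (mul_le_mul_of_nonneg_left h1 (by positivity)).trans (hstep i (by omega)).le
    obtain ⟨J, hJ⟩ : ∃ J, I = J + 1 := ⟨I - 1, by omega⟩
    have h1 : (M ^ η) ^ I < ∏ r, ((X r I).card : ℝ) := by
      have h2 := hprod J (by omega)
      have h3 := hstep J (by omega)
      rw [← hJ] at h3
      calc (M ^ η) ^ I = M ^ η * (M ^ η) ^ J := by rw [hJ, pow_succ, mul_comm]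
        _ ≤ M ^ η * ∏ r, ((X r J).card : ℝ) := mul_le_mul_of_nonneg_left h2 (by positivity)
        _ < _ := h3
    have h2 : ∏ r, ((X r I).card : ℝ) ≤ M ^ (k + 1) := by
      calc ∏ r, ((X r I).card : ℝ) ≤ ∏ _r : Option S, M :=
            Finset.prod_le_prod (fun _ _ => Nat.cast_nonneg _) (fun r _ => hXM r)
        _ = _ := by rw [Finset.prod_const, Finset.card_univ, hcardι]
    have h3 : M ^ (k + 1) ≤ (M ^ η) ^ I := by
      rw [← Real.rpow_natCast M (k + 1), ← Real.rpow_natCast (M ^ η) I, ← Real.rpow_mul hM0.le]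
      apply Real.rpow_le_rpow_of_exponent_le hM1
      push_cast
      exact hIη
    linarith
  obtain ⟨i, hiI, hi⟩ := hex
  -- the dilate
  set A' : Finset (ℤ × ℤ) := A.image (fun v => (2 ^ i : ℕ) • v) with hA'
  have hstr : ∀ r : Option S, Structured (M ^ η) 1 M (A'.image (pp S r)) := by
    intro r
    refine ⟨{X r i}, by simp, ?_, ?_⟩
    · intro D hD
      rw [mem_singleton] at hD
      subst hD
      refine ⟨?_, ?_⟩
      · rw [← hXs]; exact hi r
      · refine le_trans ?_ (hXM r)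
        exact_mod_cast hmono' r i hiI.le
    · intro x hx
      refine ⟨_, mem_singleton_self _, ?_⟩
      rw [hA', Finset.image_image] at hx
      obtain ⟨v, hv, rfl⟩ := mem_image.1 hx
      have h1 := sums_smul (mem_image_of_mem (pp S r) hv) (2 ^ i)
      change (pp S r) ((2 ^ i : ℕ) • v) ∈ X r i
      rw [map_nsmul, nsmul_eq_mul]
      exact h1
  have h1 := hC A' (hA.image _) (M ^ η) 1 M (hstr none) (fun r hr => hstr (some ⟨r, hr⟩))
  have h2 : (proj (-1) A').card = (proj (-1) A).card := by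
    have h3 : proj (-1) A' = (proj (-1) A).image (fun x : ℚ => ((2 ^ i : ℕ) : ℚ) * x) := by
      rw [hA']
      unfold proj
      rw [Finset.image_image, Finset.image_image]
      apply Finset.image_congr
      intro v _
      have e1 : (((2 ^ i : ℕ) • v).1 : ℤ) = (2 ^ i : ℕ) * v.1 := by
        rw [Prod.smul_fst, nsmul_eq_mul]
      have e2 : (((2 ^ i : ℕ) • v).2 : ℤ) = (2 ^ i : ℕ) * v.2 := by
        rw [Prod.smul_snd, nsmul_eq_mul]
      simp only [Function.comp, e1, e2]
      rw [Int.cast_mul, Int.cast_mul, Int.cast_natCast]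
      ring
    rw [h3]
    apply Finset.card_image_of_injective
    intro x y h
    have h4 : ((2 ^ i : ℕ) : ℚ) ≠ 0 := by positivity
    exact mul_left_cancel₀ h4 h
  rw [h2, mul_one] at h1
  have h3 : (M ^ η) ^ C * M ^ (k + 1) = M ^ (η * C + (k + 1)) := by
    rw [Real.rpow_add hM0, Real.rpow_mul hM0.le, Real.rpow_natCast]
    congr 1
    rw [← Real.rpow_natCast M (k + 1)]
    push_cast
    rfl
  have h4 : (M ^ (1 + 1 / (k : ℝ) + ε)) ^ k = M ^ ((k : ℝ) + 1 + ε * k) := by
    rw [← Real.rpow_natCast, ← Real.rpow_mul hM0.le]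
    congr 1
    field_simp
  have h5 : ((proj (-1) A).card : ℝ) ^ k ≤ (M ^ (1 + 1 / (k : ℝ) + ε)) ^ k := by
    refine h1.trans ?_
    rw [h3, h4]
    apply Real.rpow_le_rpow_of_exponent_le hM1
    have : (1 : ℝ) ≤ k := by exact_mod_cast hk1
    nlinarith
  exact (pow_le_pow_iff_left₀ (Nat.cast_nonneg _) (by positivity) (by omega)).1 h5

theorem lower (S : Finset ℚ) (hS : (-1 : ℚ) ∉ S) (hne : S.Nonempty) (m : ℕ) (κ : ℝ)
    (hκ : κ < 1 + 1 / (S.card : ℝ)) (C : ℝ) : ∃ A : Finset (ℤ × ℤ),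
      C * (bigSum m S A : ℝ) ^ κ < ((proj (-1) A).card : ℝ) := by
  set k : ℕ := S.card with hk
  have hk1 : 1 ≤ k := hne.card_pos
  have hk0 : (0 : ℝ) < k := by exact_mod_cast hk1
  set B : ℝ := (2 ^ (k + 1)) ^ m with hB
  have hB1 : 1 ≤ B := one_le_pow₀ (one_le_pow₀ (by norm_num))
  -- κ⁺
  set κ' : ℝ := max κ 0 with hκ'
  have hκ'0 : 0 ≤ κ' := le_max_right _ _
  have hκ'1 : κ' < 1 + 1 / (k : ℝ) := max_lt hκ (by positivity)
  set γ : ℝ := (k + 1) - k * κ' with hγ
  have hγ0 : 0 < γ := by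
    have h1 : k * κ' < k * (1 + 1 / (k : ℝ)) := mul_lt_mul_of_pos_left hκ'1 hk0
    have h2 : k * (1 + 1 / (k : ℝ)) = k + 1 := by field_simp
    rw [hγ]; linarith
  obtain ⟨N, hN⟩ : ∃ N : ℕ, (max C 0 * B ^ κ' + 1) ^ (1 / γ) ≤ N := exists_nat_ge _
  have hpos : 0 < max C 0 * B ^ κ' + 1 := by
    have : 0 ≤ max C 0 * B ^ κ' := mul_nonneg (le_max_right _ _) (by positivity)
    linarith
  have hN0 : (0 : ℝ) < N := lt_of_lt_of_le (by positivity) hN
  have hN1 : 1 ≤ N := by exact_mod_cast Nat.one_le_cast.1 (by exact_mod_cast Nat.succ_le_of_lt (by exact_mod_cast hN0))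
  obtain ⟨A, hAne, hAm, hinf, hr, hdinf, hdr⟩ := main3 S hS N hN1
  have hsum : ∀ P : Finset ℚ, P.Nonempty → P.card ≤ N ^ k → (P + P).card ≤ 2 ^ (k + 1) * P.card →
      ((sums m P).card : ℝ) ≤ B * (N : ℝ) ^ k := by
    intro P hP h1 h2
    have h3 := Pool.Agent.TH539.StrProj.pr hP (K := 2 ^ (k + 1)) (by exact_mod_cast h2) m 0
    rw [Pool.Agent.TH539.StrProj.rec_zero] at h3
    have h4 : (nsmulRec m P - ({0} : Finset ℚ)) = sums m P := by
      rw [sums_rec]
      ext x
      simp
    rw [h4, add_zero] at h3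
    refine h3.trans ?_
    rw [← hB]
    apply mul_le_mul_of_nonneg_left _ (by linarith)
    exact_mod_cast h1
  have hbig : (bigSum m S A : ℝ) ≤ B * (N : ℝ) ^ k := by
    unfold bigSum
    rw [Nat.cast_max]
    apply max_le
    · exact hsum _ (hAne.image _) hinf hdinf
    · obtain ⟨r, hr1, hr2⟩ := Finset.exists_mem_eq_sup S hne (fun r => (sums m (proj r A)).card)
      rw [hr2]
      exact hsum _ (hAne.image _) (hr r hr1) (hdr r hr1)
  have hbig1 : (1 : ℝ) ≤ bigSum m S A := by
    have : 1 ≤ bigSum m S A := le_trans (sums_nonempty (hAne.image _) m).card_pos (le_max_left _ _)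
    exact_mod_cast this
  refine ⟨A, ?_⟩
  rw [hAm]
  have h1 : C * (bigSum m S A : ℝ) ^ κ ≤ max C 0 * (B ^ κ' * (N : ℝ) ^ (k * κ')) := by
    calc C * (bigSum m S A : ℝ) ^ κ ≤ max C 0 * (bigSum m S A : ℝ) ^ κ' := by
          apply mul_le_mul (le_max_left _ _) _ (by positivity) (le_max_right _ _)
          exact Real.rpow_le_rpow_of_exponent_le hbig1 (le_max_left _ _)
      _ ≤ max C 0 * (B * (N : ℝ) ^ k) ^ κ' := by
          apply mul_le_mul_of_nonneg_left _ (le_max_right _ _)
          exact Real.rpow_le_rpow (by positivity) hbig hκ'0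
      _ = _ := by
          rw [Real.mul_rpow (by linarith) (by positivity), ← Real.rpow_natCast (N : ℝ) k,
            ← Real.rpow_mul hN0.le]
  refine lt_of_le_of_lt h1 ?_
  have h2 : max C 0 * B ^ κ' < (N : ℝ) ^ γ := by
    have h3 : ((max C 0 * B ^ κ' + 1) ^ (1 / γ)) ^ γ ≤ (N : ℝ) ^ γ :=
      Real.rpow_le_rpow (by positivity) hN hγ0.le
    rw [← Real.rpow_mul hpos.le, one_div, inv_mul_cancel₀ hγ0.ne', Real.rpow_one] at h3
    linarith
  have h3 : (((N ^ (k + 1) : ℕ) : ℝ)) = (N : ℝ) ^ γ * (N : ℝ) ^ (k * κ') := by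
    rw [← Real.rpow_add hN0, hγ]
    have : (k : ℝ) + 1 - k * κ' + k * κ' = ((k + 1 : ℕ) : ℝ) := by push_cast; ring
    rw [this, Real.rpow_natCast]
    push_cast
    rfl
  rw [h3, ← mul_assoc]
  exact mul_lt_mul_of_pos_right h2 (by positivity)

end Pool.Agent.N240.Proj
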