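import Mathlib
import Pool.Agent.N240.S.Core

set_option autoImplicit false

/-! # Sumsets of slices -/

open Finset MeasureTheory
open scoped Pointwise ENNReal

namespace Pool.Agent.N240.S

/-- `2 ^ i`-fold sumsets -/
def dbl {V : Type*} [AddCommGroup V] : ℕ → Set V → Set V
  | 0, X => X
  | i + 1, X => {z | ∃ x ∈ dbl i X, ∃ y ∈ dbl i X, x + y = z}

theorem dbl_smul {d : ℕ} (i : ℕ) {X : Set (Fin d → ℝ)} {x : Fin d → ℝ} (hx : x ∈ X) :
    (fun l => 2 ^ i * x l) ∈ dbl i X := by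
  induction i with
  | zero => simpa [dbl] using hx
  | succ i ih =>
    refine ⟨_, ih, _, ih, ?_⟩
    funext l
    simp only [Pi.add_apply]
    ring

theorem dbl_nonempty {V : Type*} [AddCommGroup V] (i : ℕ) {X : Set V} (hX : X.Nonempty) :
    (dbl i X).Nonempty := by
  induction i with
  | zero => exact hX
  | succ i ih =>
    obtain ⟨x, hx⟩ := ih
    exact ⟨x + x, x, hx, x, hx, rfl⟩

theorem dbl_bound {d : ℕ} (i : ℕ) {X : Set (Fin d → ℝ)} {R : ℝ} (hX : ∀ x ∈ X, ∀ l, |x l| ≤ R) :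
    ∀ x ∈ dbl i X, ∀ l, |x l| ≤ 2 ^ i * R := by
  induction i with
  | zero => simpa [dbl] using hX
  | succ i ih =>
    rintro _ ⟨x, hx, y, hy, rfl⟩ l
    rw [Pi.add_apply]
    calc |x l + y l| ≤ |x l| + |y l| := abs_add_le _ _
      _ ≤ 2 ^ i * R + 2 ^ i * R := add_le_add (ih x hx l) (ih y hy l)
      _ = _ := by ring

/-- `m`-fold sumset -/
def sumset {V : Type*} [AddCommGroup V] (m : ℕ) (X : Set V) : Set V :=
  {z | ∃ f : Fin m → V, (∀ i, f i ∈ X) ∧ z = ∑ i, f i}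

theorem dbl_sub {V : Type*} [AddCommGroup V] (i : ℕ) (X : Set V) : dbl i X ⊆ sumset (2 ^ i) X := by
  induction i with
  | zero =>
    intro x hx
    exact ⟨fun _ => x, fun _ => hx, by simp⟩
  | succ i ih =>
    rintro _ ⟨x, hx, y, hy, rfl⟩
    obtain ⟨f, hf, rfl⟩ := ih hx
    obtain ⟨g, hg, rfl⟩ := ih hy
    have e : 2 ^ (i + 1) = 2 ^ i + 2 ^ i := by ring
    rw [e]
    refine ⟨Fin.append f g, fun l => ?_, ?_⟩
    · refine Fin.addCases (fun l => ?_) (fun l => ?_) l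
      · rw [Fin.append_left]; exact hf l
      · rw [Fin.append_right]; exact hg l
    · rw [Fin.sum_univ_add]
      simp only [Fin.append_left, Fin.append_right]

theorem cells_finite {d : ℕ} {δ R : ℝ} (hδ : 0 < δ) {X : Set (Fin d → ℝ)}
    (hX : ∀ x ∈ X, ∀ l, |x l| ≤ R) :
    (cells δ X).Finite ∧ ((cells δ X).ncard : ℝ) ≤ (2 * R / δ + 2) ^ d ∨ X = ∅ := by
  rcases X.eq_empty_or_nonempty with h | ⟨x0, hx0⟩
  · right; exact h
  left
  have hsub : cells δ X ⊆ (Fintype.piFinset (fun _ : Fin d => Finset.Icc ⌊-R / δ⌋ ⌊R / δ⌋) :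
      Finset (Fin d → ℤ)) := by
    rintro _ ⟨x, hx, rfl⟩
    rw [Finset.mem_coe, Fintype.mem_piFinset]
    intro l
    have h := abs_le.1 (hX x hx l)
    rw [Finset.mem_Icc]
    constructor
    · apply Int.floor_le_floor
      exact div_le_div_of_nonneg_right h.1 hδ.le
    · apply Int.floor_le_floor
      exact div_le_div_of_nonneg_right h.2 hδ.le
  refine ⟨Set.Finite.subset (Finset.finite_toSet _) hsub, ?_⟩
  have h1 : (cells δ X).ncard ≤ _ := Set.ncard_le_ncard hsub (Finset.finite_toSet _)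
  rw [Set.ncard_coe_finset, Fintype.card_piFinset_const] at h1
  have h2 : ((cells δ X).ncard : ℝ) ≤ ((Finset.Icc ⌊-R / δ⌋ ⌊R / δ⌋).card : ℝ) ^ d := by
    exact_mod_cast h1
  rcases Nat.eq_zero_or_pos d with hd | hd
  · subst hd
    simpa using h2
  have hR : 0 ≤ R := (abs_nonneg _).trans (hX x0 hx0 ⟨0, hd⟩)
  refine h2.trans (pow_le_pow_left₀ (by positivity) ?_ d)
  rw [Int.card_Icc]
  have h3 : ⌊-R / δ⌋ ≤ ⌊R / δ⌋ := by
    apply Int.floor_le_floor
    exact div_le_div_of_nonneg_right (by linarith) hδ.le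
  have h4 : (((⌊R / δ⌋ + 1 - ⌊-R / δ⌋).toNat : ℤ) : ℝ) = ⌊R / δ⌋ + 1 - ⌊-R / δ⌋ := by
    rw [Int.toNat_of_nonneg (by omega)]
    push_cast
    ring
  have h5 : (((⌊R / δ⌋ + 1 - ⌊-R / δ⌋).toNat : ℕ) : ℝ) = ⌊R / δ⌋ + 1 - ⌊-R / δ⌋ := by
    rw [← h4]; push_cast; rfl
  rw [h5]
  have h6 := Int.floor_le (R / δ)
  have h7 := Int.sub_one_lt_floor (-R / δ)
  have h8 : 2 * R / δ = R / δ - -R / δ := by ring
  rw [h8]
  linarith

/-- sums of cells -/
theorem cells_add {d : ℕ} {δ : ℝ} {X : Set (Fin d → ℝ)} (i : ℕ)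
    {D E : Finset (Fin d → ℤ)} (hD : (D : Set (Fin d → ℤ)) = cells δ (dbl i X))
    (hE : (E : Set (Fin d → ℤ)) = cells δ (dbl (i + 1) X)) : (D + D).card ≤ 2 ^ d * E.card := by
  classical
  have hsub : D + D ⊆ E + (Fintype.piFinset (fun _ : Fin d => Finset.Icc (-1 : ℤ) 0)) := by
    intro z hz
    obtain ⟨p, hp, q, hq, rfl⟩ := Finset.mem_add.1 hz
    rw [← Finset.mem_coe, hD] at hp hq
    obtain ⟨x, hx, rfl⟩ := hp
    obtain ⟨y, hy, rfl⟩ := hq
    have h1 : (fun l => ⌊(x + y) l / δ⌋) ∈ cells δ (dbl (i + 1) X) := ⟨x + y, ⟨x, hx, y, hy, rfl⟩, rfl⟩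
    rw [← hE, Finset.mem_coe] at h1
    refine Finset.mem_add.2 ⟨_, h1, fun l => ⌊x l / δ⌋ + ⌊y l / δ⌋ - ⌊(x + y) l / δ⌋, ?_, ?_⟩
    · rw [Fintype.mem_piFinset]
      intro l
      rw [Finset.mem_Icc]
      have e : (x + y) l / δ = x l / δ + y l / δ := by
        rw [Pi.add_apply]; ring
      rw [e]
      have h2 := Int.le_floor_add (x l / δ) (y l / δ)
      have h3 := Int.le_floor_add_floor (x l / δ) (y l / δ)
      omega
    · funext l
      simp only [Pi.add_apply]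
      ring
  calc (D + D).card ≤ _ := Finset.card_le_card hsub
    _ ≤ E.card * (Fintype.piFinset (fun _ : Fin d => Finset.Icc (-1 : ℤ) 0)).card :=
        Finset.card_add_le
    _ = 2 ^ d * E.card := by
        rw [Fintype.card_piFinset_const, mul_comm]
        rfl

theorem floor_two {i : ℕ} {a b : ℝ} (h : ⌊(2 : ℝ) ^ i * a⌋ = ⌊(2 : ℝ) ^ i * b⌋) : ⌊a⌋ ≤ ⌊b⌋ := by
  have h2 : (0 : ℝ) < 2 ^ i := by positivity
  rw [Int.le_floor]
  have h1 : (2 ^ i * ⌊a⌋ : ℤ) ≤ ⌊(2 : ℝ) ^ i * a⌋ := by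
    rw [Int.le_floor]
    push_cast
    exact mul_le_mul_of_nonneg_left (Int.floor_le a) h2.le
  rw [h, Int.le_floor] at h1
  push_cast at h1
  exact le_of_mul_le_mul_left h1 h2

/-- one progression of heights, sumsets of slices -/
theorem sumstep (d k : ℕ) (hk : 1 ≤ k) : ∃ C : ℕ, ∀ (I : ℕ) (δ L R M : ℝ), 0 < δ → 1 ≤ L →
    (2 * (2 ^ I * R) / δ + 2) ^ (d * (k + 1)) < (L / 2 ^ (d * k)) ^ I →
    ∀ X : Fin (k + 1) → Set (Fin d → ℝ), (∀ j, ∀ x ∈ X j, ∀ l, |x l| ≤ R) →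
    ∀ 𝒲 : Finset (Fin d → ℤ), 𝒲.Nonempty → (∀ w ∈ 𝒲, ∃ x y : Fin d → ℝ, (∀ i, ⌊y i⌋ = w i) ∧
      ∀ j : Fin (k + 1), (fun i => x i + (j : ℕ) * (δ * y i)) ∈ X j) →
    (2 ^ d * L * (2 ^ d * L * ((k : ℝ) + 1) ^ d)) ^ C * M ^ (k + 1) < (𝒲.card : ℝ) ^ k →
    ∃ j : Fin (k + 1), (cells δ (dbl I (X j))).Finite ∧
      M / 2 ^ (d * I) < ((cells δ (dbl I (X j))).ncard : ℝ) := by
  classical
  obtain ⟨C, hC⟩ := prog d k hk
  refine ⟨C, fun I δ L R M hδ hL hpig X hXR 𝒲 hne hw hnum => ?_⟩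
  choose! x y hy hxy using hw
  have hXne : ∀ j, (X j).Nonempty := by
    obtain ⟨w, hw⟩ := hne
    exact fun j => ⟨_, hxy w hw j⟩
  have hfin : ∀ i j, (cells δ (dbl i (X j))).Finite := by
    intro i j
    rcases cells_finite hδ (dbl_bound i (hXR j)) with h | h
    · exact h.1
    · exact absurd h (dbl_nonempty i (hXne j)).ne_empty
  have hcard : ∀ i j, ((cells δ (dbl i (X j))).ncard : ℝ) ≤ (2 * (2 ^ i * R) / δ + 2) ^ d := by
    intro i j
    rcases cells_finite hδ (dbl_bound i (hXR j)) with h | h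
    · exact h.2
    · exact absurd h (dbl_nonempty i (hXne j)).ne_empty
  set D : ℕ → Fin (k + 1) → Finset (Fin d → ℤ) := fun i j => (hfin i j).toFinset with hD
  have hDc : ∀ i j, (D i j : Set (Fin d → ℤ)) = cells δ (dbl i (X j)) := fun i j =>
    (hfin i j).coe_toFinset
  have hDn : ∀ i j, (cells δ (dbl i (X j))).ncard = (D i j).card := fun i j => by
    rw [← hDc, Set.ncard_coe_finset]
  have hDne : ∀ i j, (D i j).Nonempty := by
    intro i j
    obtain ⟨z, hz⟩ := dbl_nonempty i (hXne j)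
    exact ⟨_, by rw [← Finset.mem_coe, hDc]; exact ⟨z, hz, rfl⟩⟩
  have hadd : ∀ i j, (D i j + D i j).card ≤ 2 ^ d * (D (i + 1) j).card := fun i j =>
    cells_add i (hDc i j) (hDc (i + 1) j)
  have hmono : ∀ i j, ((D i j).card : ℝ) ≤ 2 ^ d * (D (i + 1) j).card := by
    intro i j
    have h1 : (D i j).card ≤ (D i j + D i j).card := Finset.card_le_card_add_right (hDne i j)
    exact_mod_cast h1.trans (hadd i j)
  have hmono2 : ∀ r i j, ((D i j).card : ℝ) ≤ 2 ^ (d * r) * (D (i + r) j).card := by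
    intro r
    induction r with
    | zero => intro i j; simp
    | succ r ih =>
      intro i j
      calc ((D i j).card : ℝ) ≤ 2 ^ (d * r) * (D (i + r) j).card := ih i j
        _ ≤ 2 ^ (d * r) * (2 ^ d * (D (i + r + 1) j).card) :=
            mul_le_mul_of_nonneg_left (hmono _ _) (by positivity)
        _ = 2 ^ (d * (r + 1)) * (D (i + (r + 1)) j).card := by
            rw [← mul_assoc, ← pow_add]
            rfl
  have hex : ∃ i < I, ∀ j, ((D (i + 1) j).card : ℝ) ≤ L * (D i j).card := by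
    by_contra hcon
    push Not at hcon
    have hstep : ∀ i < I, (L / 2 ^ (d * k)) * ∏ j, ((D i j).card : ℝ) ≤
        ∏ j, ((D (i + 1) j).card : ℝ) := by
      intro i hi
      obtain ⟨j₀, hj₀⟩ := hcon i hi
      rw [← Finset.mul_prod_erase univ _ (mem_univ j₀), ← Finset.mul_prod_erase univ _ (mem_univ j₀)]
      have h1 : (∏ j ∈ univ.erase j₀, ((D i j).card : ℝ)) / 2 ^ (d * k) ≤
          ∏ j ∈ univ.erase j₀, ((D (i + 1) j).card : ℝ) := by
        rw [div_le_iff₀ (by positivity)]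
        calc ∏ j ∈ univ.erase j₀, ((D i j).card : ℝ)
            ≤ ∏ j ∈ univ.erase j₀, (2 ^ d * (D (i + 1) j).card : ℝ) :=
              Finset.prod_le_prod (fun _ _ => Nat.cast_nonneg _) (fun j _ => hmono i j)
          _ = _ := by
              rw [Finset.prod_mul_distrib, Finset.prod_const, Finset.card_erase_of_mem (mem_univ _),
                Finset.card_univ, Fintype.card_fin, Nat.add_sub_cancel, ← pow_mul, mul_comm]
      calc L / 2 ^ (d * k) * (((D i j₀).card : ℝ) * ∏ j ∈ univ.erase j₀, ((D i j).card : ℝ))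
          = (L * (D i j₀).card) * ((∏ j ∈ univ.erase j₀, ((D i j).card : ℝ)) / 2 ^ (d * k)) := by
            ring
        _ ≤ _ := by
            exact mul_le_mul hj₀.le h1
              (div_nonneg (Finset.prod_nonneg fun _ _ => Nat.cast_nonneg _) (by positivity))
              (Nat.cast_nonneg _)
    have hprod : ∀ i ≤ I, (L / 2 ^ (d * k)) ^ i ≤ ∏ j, ((D i j).card : ℝ) := by
      intro i
      induction i with
      | zero =>
        intro _
        rw [pow_zero]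
        have : ∏ _j : Fin (k + 1), (1 : ℝ) ≤ ∏ j, ((D 0 j).card : ℝ) :=
          Finset.prod_le_prod (fun _ _ => zero_le_one)
            (fun j _ => by exact_mod_cast (hDne 0 j).card_pos)
        simpa using this
      | succ i ih =>
        intro hi
        have h1 := ih (by omega)
        rw [pow_succ, mul_comm]
        exact (mul_le_mul_of_nonneg_left h1 (by positivity)).trans (hstep i (by omega))
    have h1 := hprod I le_rfl
    have h2 : ∏ j, ((D I j).card : ℝ) ≤ (2 * (2 ^ I * R) / δ + 2) ^ (d * (k + 1)) := by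
      calc ∏ j, ((D I j).card : ℝ) ≤ ∏ _j : Fin (k + 1), (2 * (2 ^ I * R) / δ + 2) ^ d :=
            Finset.prod_le_prod (fun _ _ => Nat.cast_nonneg _) (fun j _ => by
              rw [← hDn]; exact hcard I j)
        _ = _ := by rw [Finset.prod_const, Finset.card_univ, Fintype.card_fin, ← pow_mul]
    linarith
  obtain ⟨i, hiI, hi⟩ := hex
  set 𝒲' : Finset (Fin d → ℤ) := 𝒲.image (fun w l => ⌊(2 : ℝ) ^ i * y w l⌋) with h𝒲'
  have hcard' : 𝒲'.card = 𝒲.card := by
    apply Finset.card_image_of_injOn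
    intro w hw w' hw' h
    funext l
    have h1 : ⌊(2 : ℝ) ^ i * y w l⌋ = ⌊(2 : ℝ) ^ i * y w' l⌋ := congrFun h l
    rw [← hy w hw l, ← hy w' hw' l]
    exact le_antisymm (floor_two h1) (floor_two h1.symm)
  have hstr : ∀ j, Structured (2 ^ d * L) δ (dbl i (X j)) := by
    intro j
    refine ⟨{D i j}, ?_, ?_, ?_⟩
    · rw [Finset.card_singleton]
      push_cast
      have : (1 : ℝ) ≤ 2 ^ d := one_le_pow₀ (by norm_num)
      nlinarith
    · intro E hE
      rw [Finset.mem_singleton] at hE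
      subst hE
      refine ⟨(hDc i j).le, ?_⟩
      have h1 : (((D i j + D i j).card : ℕ) : ℝ) ≤ 2 ^ d * (D (i + 1) j).card := by
        exact_mod_cast hadd i j
      calc (((D i j + D i j).card : ℕ) : ℝ) ≤ 2 ^ d * (D (i + 1) j).card := h1
        _ ≤ 2 ^ d * (L * (D i j).card) := mul_le_mul_of_nonneg_left (hi j) (by positivity)
        _ = _ := by ring
    · rw [Finset.set_biUnion_singleton, hDc]
  obtain ⟨j, hj⟩ : ∃ j, M < ((D i j).card : ℝ) := by
    by_contra hcon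
    push Not at hcon
    have h1 := hC δ hδ (2 ^ d * L) M (fun j => dbl i (X j)) hstr
      (fun j => by rw [hDn]; exact hcon j) 𝒲' (hne.image _) (fun w' hw' => ?_)
    · rw [hcard'] at h1
      linarith
    · obtain ⟨w, hw, rfl⟩ := Finset.mem_image.1 hw'
      refine ⟨fun l => 2 ^ i * x w l, fun l => 2 ^ i * y w l, fun l => rfl, fun j => ?_⟩
      convert dbl_smul i (hxy w hw j) using 1
      funext l
      ring
  refine ⟨j, hfin I j, ?_⟩
  rw [hDn, div_lt_iff₀ (by positivity)]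
  have h1 := hmono2 (I - i) i j
  rw [Nat.add_sub_cancel' hiI.le] at h1
  calc M < ((D i j).card : ℝ) := hj
    _ ≤ 2 ^ (d * (I - i)) * (D I j).card := h1
    _ ≤ 2 ^ (d * I) * (D I j).card := by
        apply mul_le_mul_of_nonneg_right _ (Nat.cast_nonneg _)
        apply pow_le_pow_right₀ (by norm_num)
        exact Nat.mul_le_mul_left _ (Nat.sub_le _ _)
    _ = _ := mul_comm _ _

end Pool.Agent.N240.S
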