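import Mathlib
import Pool.Agent.N240.S.Sum
import Pool.Agent.N240.S.Fin

set_option autoImplicit false

/-! # Sumsets of slices of Kakeya sets -/

open Finset MeasureTheory
open scoped Pointwise ENNReal

namespace Pool.Agent.N240.S

theorem pt_inj {d : ℕ} {x x' : Fin d → ℝ} {t t' : ℝ} (h : pt x t = pt x' t') : x = x' ∧ t = t' := by
  have h1 : (Fin.snoc x t : Fin (d + 1) → ℝ) = Fin.snoc x' t' :=
    congrArg (WithLp.ofLp : EuclideanSpace ℝ (Fin (d + 1)) → Fin (d + 1) → ℝ) h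
  constructor
  · funext i
    have := congrFun h1 i.castSucc
    simpa using this
  · have := congrFun h1 (Fin.last d)
    simpa using this

/-- the union of the `m`-fold sumsets of the slices -/
def sliceSum {d : ℕ} (m : ℕ) (K : Set (EuclideanSpace ℝ (Fin (d + 1)))) :
    Set (EuclideanSpace ℝ (Fin (d + 1))) :=
  {p | ∃ (t : ℝ) (f : Fin m → Fin d → ℝ), (∀ i, pt (f i) t ∈ K) ∧ p = pt (∑ i, f i) t}

/-- the union of the `2 ^ I`-fold sumsets of the slices -/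
def KK {d : ℕ} (I : ℕ) (K : Set (EuclideanSpace ℝ (Fin (d + 1)))) :
    Set (EuclideanSpace ℝ (Fin (d + 1))) :=
  {p | ∃ (t : ℝ), ∃ x ∈ dbl I (slice K t), p = pt x t}

theorem slice_KK {d : ℕ} (I : ℕ) (K : Set (EuclideanSpace ℝ (Fin (d + 1)))) (t : ℝ) :
    slice (KK I K) t = dbl I (slice K t) := by
  ext x
  constructor
  · rintro ⟨t', x', hx', h⟩
    obtain ⟨rfl, rfl⟩ := pt_inj h
    exact hx'
  · intro hx
    exact ⟨t, x, hx, rfl⟩

theorem KK_sub {d : ℕ} (I : ℕ) (K : Set (EuclideanSpace ℝ (Fin (d + 1)))) :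
    KK I K ⊆ sliceSum (2 ^ I) K := by
  rintro p ⟨t, x, hx, rfl⟩
  obtain ⟨f, hf, rfl⟩ := dbl_sub I _ hx
  exact ⟨t, f, hf, rfl⟩

theorem slice_bound {d : ℕ} {K : Set (EuclideanSpace ℝ (Fin (d + 1)))} {R : ℝ}
    (hK : K ⊆ Metric.closedBall 0 R) (t : ℝ) : ∀ x ∈ slice K t, ∀ l, |x l| ≤ R := by
  intro x hx l
  have h1 := hK hx
  rw [mem_closedBall_zero_iff] at h1
  have h2 := PiLp.norm_apply_le (pt x t) l.castSucc
  have h3 : pt x t l.castSucc = x l := by simp [pt]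
  rw [h3, Real.norm_eq_abs] at h2
  exact h2.trans h1

theorem sumquant (d : ℕ) (hd : 1 ≤ d) (ε : ℝ) (hε : 0 < ε) : ∃ m : ℕ, 1 ≤ m ∧
    ∀ ρ : ℝ, 0 < ρ → ρ ≤ 1 → ∀ R lam : ℝ, 0 ≤ R → 0 < lam → ∃ c : ℝ, 0 < c ∧
    ∀ K : Set (EuclideanSpace ℝ (Fin (d + 1))), K ⊆ Metric.closedBall 0 R →
    ∀ V : Set (Fin d → ℝ), (∀ v ∈ V, ∀ i, v i ∈ Set.Icc (0 : ℝ) 1) →
    ENNReal.ofReal lam ≤ volume V →
    (∀ v ∈ V, ∃ (a : Fin d → ℝ) (s : ℝ), ∀ t ∈ Set.Icc s (s + ρ),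
      pt (fun i => a i + t * v i) t ∈ K) →
    ∀ δ : ℝ, 0 < δ → δ < 1 →
    ENNReal.ofReal (c * δ ^ ε) ≤ volume (Metric.thickening (√(d + 1) * δ) (sliceSum m K)) := by
  set k : ℕ := ⌈2 * (d : ℝ) / ε⌉₊ with hk
  have hd0 : (1 : ℝ) ≤ d := by exact_mod_cast hd
  have hkε : 2 * (d : ℝ) ≤ k * ε := by
    rw [← div_le_iff₀ hε]; exact Nat.le_ceil _
  have hk1 : 1 ≤ k := by
    rw [hk, Nat.one_le_ceil_iff]; positivity
  have hk0 : (1 : ℝ) ≤ k := by exact_mod_cast hk1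
  obtain ⟨C, hC⟩ := sumstep d k hk1
  set η : ℝ := ε / (4 * (C + 1)) with hη
  have hη0 : 0 < η := by positivity
  have hηC : 2 * η * C ≤ ε / 2 := by
    have h1 : 2 * η * C = ε / 2 * (C / (C + 1)) := by
      rw [hη]; field_simp; ring
    rw [h1]
    have h2 : (C : ℝ) / (C + 1) ≤ 1 := by
      rw [div_le_one (by positivity)]; linarith
    calc ε / 2 * (C / (C + 1)) ≤ ε / 2 * 1 := mul_le_mul_of_nonneg_left h2 (by positivity)
      _ = ε / 2 := mul_one _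
  set I : ℕ := ⌈((d * (k + 1) : ℕ) + 1 : ℝ) / η⌉₊ with hI
  have hIη : ((d * (k + 1) : ℕ) + 1 : ℝ) ≤ I * η := by
    rw [← div_le_iff₀ hη0]; exact Nat.le_ceil _
  refine ⟨2 ^ I, Nat.one_le_two_pow, fun ρ hρ hρ1 R lam hR hlam => ?_⟩
  set c₁ : ℝ := (lam * (ρ / (16 * k)) ^ d / (2 * QQ R ρ + 1)) ^ k with hc₁
  have hc₁0 : 0 < c₁ := by positivity
  set G : ℝ := (2 ^ d * (2 ^ d * ((k : ℝ) + 1) ^ d)) ^ C with hG
  have hG0 : 0 < G := by positivity
  set c₂ : ℝ := min 1 (c₁ / (2 * G)) with hc₂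
  have hc₂0 : 0 < c₂ := lt_min one_pos (by positivity)
  have hc₂1 : c₂ ≤ 1 := min_le_left _ _
  set A : ℝ := (2 * (2 ^ I * R) + 2) ^ (d * (k + 1)) * 2 ^ (d * k * I) with hA
  have hA0 : 0 < A := by positivity
  set δ₀ : ℝ := min (ρ / (16 * k)) (1 / (2 * A)) with hδ₀
  have hδ₀0 : 0 < δ₀ := lt_min (by positivity) (by positivity)
  set c₄ : ℝ := (volume (Metric.ball (0 : EuclideanSpace ℝ (Fin (d + 1))) δ₀)).toReal with hc₄
  have hc₄0 : 0 < c₄ := ENNReal.toReal_pos (Metric.measure_ball_pos _ _ hδ₀0).ne'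
    measure_ball_lt_top.ne
  refine ⟨min (ρ / (32 * (k + 1)) * (c₂ / 2 ^ (d * I))) c₄, lt_min (by positivity) hc₄0, ?_⟩
  intro K hKR V hV hVlam hseg δ hδ hδ1
  rcases le_or_gt δ δ₀ with hle | hgt
  · have hx : 0 < δ ^ (ε - d) := Real.rpow_pos_of_pos hδ _
    have hL1 : 1 ≤ δ ^ (-η) := Real.one_le_rpow_of_pos_of_le_one_of_nonpos hδ hδ1.le (by linarith)
    have hpig : (2 * (2 ^ I * R) / δ + 2) ^ (d * (k + 1)) < (δ ^ (-η) / 2 ^ (d * k)) ^ I := by
      have h1 : 2 * (2 ^ I * R) / δ + 2 ≤ (2 * (2 ^ I * R) + 2) / δ := by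
        rw [add_div]
        have : 2 ≤ 2 / δ := by rw [le_div_iff₀ hδ]; linarith
        linarith
      have h2 : (2 * (2 ^ I * R) / δ + 2) ^ (d * (k + 1)) ≤
          (2 * (2 ^ I * R) + 2) ^ (d * (k + 1)) / δ ^ (d * (k + 1)) := by
        rw [← div_pow]
        exact pow_le_pow_left₀ (by positivity) h1 _
      have h3 : (δ ^ (-η) / 2 ^ (d * k)) ^ I = δ ^ (-(I * η)) / 2 ^ (d * k * I) := by
        rw [div_pow, ← pow_mul, ← Real.rpow_natCast (δ ^ (-η)) I, ← Real.rpow_mul hδ.le]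
        congr 2
        ring
      have h4 : δ ^ (-(((d * (k + 1) : ℕ) : ℝ) + 1)) ≤ δ ^ (-(I * η)) := by
        apply Real.rpow_le_rpow_of_exponent_ge hδ hδ1.le
        linarith
      have h5 : δ ^ (-(((d * (k + 1) : ℕ) : ℝ) + 1)) = (δ ^ (d * (k + 1)))⁻¹ * δ⁻¹ := by
        rw [neg_add, Real.rpow_add hδ, Real.rpow_neg hδ.le, Real.rpow_natCast, Real.rpow_neg_one]
      rw [h3]
      refine lt_of_le_of_lt h2 (lt_of_lt_of_le ?_ (div_le_div_of_nonneg_right h4 (by positivity)))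
      rw [h5, lt_div_iff₀ (by positivity), div_mul_eq_mul_div, ← hA, div_eq_mul_inv, mul_comm A]
      apply mul_lt_mul_of_pos_left _ (by positivity)
      rw [lt_inv_comm₀ hA0 hδ]
      have h6 : δ ≤ 1 / (2 * A) := hle.trans (min_le_right _ _)
      refine lt_of_le_of_lt h6 ?_
      rw [one_div]
      apply inv_strictAnti₀ hA0
      linarith
    have key := core d k hk1 ρ R lam δ (c₂ * δ ^ (ε - (d : ℝ)) / 2 ^ (d * I)) hρ hρ1 hlam hδ
      (hle.trans (min_le_left _ _)) (by positivity) K (KK I K) hKR V hV hVlam hseg ∅ (by simp) ?_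
    · refine le_trans (ENNReal.ofReal_le_ofReal ?_) (key.trans
        (measure_mono (Metric.thickening_subset_of_subset _ (KK_sub I K))))
      calc min (ρ / (32 * (k + 1)) * (c₂ / 2 ^ (d * I))) c₄ * δ ^ ε
          ≤ (ρ / (32 * (k + 1)) * (c₂ / 2 ^ (d * I))) * δ ^ ε :=
            mul_le_mul_of_nonneg_right (min_le_left _ _) (Real.rpow_nonneg hδ.le _)
        _ = ρ / (32 * (k + 1)) * (c₂ * δ ^ (ε - (d : ℝ)) / 2 ^ (d * I)) * δ ^ d := by
            have : δ ^ ε = δ ^ (ε - (d : ℝ)) * δ ^ d := by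
              rw [← Real.rpow_natCast δ d, ← Real.rpow_add hδ]; congr 1; ring
            rw [this]; ring
    · intro t h hh _ 𝒲 hcard hw
      have hpos1 : 0 < lam * (ρ / (16 * k * δ)) ^ d / (2 * (QQ R ρ : ℝ) + 1) := by positivity
      have hne : 𝒲.Nonempty := by
        rw [← Finset.card_pos]
        have : (0 : ℝ) < 𝒲.card := hpos1.trans_le hcard
        exact_mod_cast this
      simp only [slice_KK]
      refine hC I δ (δ ^ (-η)) R (c₂ * δ ^ (ε - (d : ℝ))) hδ hL1 hpig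
        (fun j => slice K (t + (j : ℕ) * h)) (fun j => slice_bound hKR _) 𝒲 hne (fun w hw' => ?_) ?_
      · obtain ⟨a, v, hv1, hv2⟩ := hw w hw'
        refine ⟨fun i => a i + t * v i, fun i => h / δ * v i, hv1, fun j => ?_⟩
        convert hv2 j using 1
        funext i
        field_simp
        ring
      · have h2 : (lam * (ρ / (16 * k * δ)) ^ d / (2 * QQ R ρ + 1)) ^ k ≤ (𝒲.card : ℝ) ^ k :=
          pow_le_pow_left₀ hpos1.le hcard _
        refine lt_of_lt_of_le ?_ h2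
        have e1 : (lam * (ρ / (16 * k * δ)) ^ d / (2 * QQ R ρ + 1)) ^ k =
            c₁ * δ ^ (-((d : ℝ) * k)) := by
          have h1 : ρ / (16 * k * δ) = ρ / (16 * k) * δ⁻¹ := by field_simp
          have h2 : δ ^ (-((d : ℝ) * k)) = (δ⁻¹ ^ d) ^ k := by
            rw [Real.rpow_neg hδ.le, ← pow_mul, ← Nat.cast_mul, Real.rpow_natCast, inv_pow]
          rw [h1, h2, hc₁, ← mul_pow, mul_pow (ρ / (16 * k)) δ⁻¹ d]
          congr 1
          ring
        have e2 : (2 ^ d * δ ^ (-η) * (2 ^ d * δ ^ (-η) * ((k : ℝ) + 1) ^ d)) ^ C =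
            δ ^ (-(2 * η * C)) * G := by
          have h1 : δ ^ (-(2 * η * C)) = (δ ^ (-η) * δ ^ (-η)) ^ C := by
            rw [← Real.rpow_add hδ, ← Real.rpow_natCast (δ ^ (-η + -η)) C, ← Real.rpow_mul hδ.le]
            congr 1; ring
          rw [h1, hG, ← mul_pow]
          congr 1
          ring
        have e3 : (c₂ * δ ^ (ε - (d : ℝ))) ^ (k + 1) = c₂ ^ (k + 1) * δ ^ ((ε - d) * (k + 1)) := by
          rw [mul_pow, ← Real.rpow_natCast (δ ^ (ε - (d : ℝ))) (k + 1), ← Real.rpow_mul hδ.le]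
          push_cast
          rfl
        rw [e1, e2, e3]
        have h3 : c₂ ^ (k + 1) ≤ c₁ / (2 * G) := by
          calc c₂ ^ (k + 1) ≤ c₂ ^ 1 := pow_le_pow_of_le_one hc₂0.le hc₂1 (by omega)
            _ = c₂ := pow_one _
            _ ≤ _ := min_le_right _ _
        have h4 : δ ^ (-(2 * η * C)) * δ ^ ((ε - d) * (k + 1)) ≤ δ ^ (-((d : ℝ) * k)) := by
          rw [← Real.rpow_add hδ]
          apply Real.rpow_le_rpow_of_exponent_ge hδ hδ1.le
          have : 0 ≤ ε * k / 2 - d := by linarith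
          nlinarith
        have h5 : 0 < δ ^ (-((d : ℝ) * k)) := Real.rpow_pos_of_pos hδ _
        calc δ ^ (-(2 * η * C)) * G * (c₂ ^ (k + 1) * δ ^ ((ε - d) * (k + 1)))
            = (G * c₂ ^ (k + 1)) * (δ ^ (-(2 * η * C)) * δ ^ ((ε - d) * (k + 1))) := by ring
          _ ≤ (G * (c₁ / (2 * G))) * δ ^ (-((d : ℝ) * k)) := by
              apply mul_le_mul _ h4 (by positivity) (by positivity)
              exact mul_le_mul_of_nonneg_left h3 hG0.le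
          _ = c₁ / 2 * δ ^ (-((d : ℝ) * k)) := by
              congr 1; field_simp
          _ < c₁ * δ ^ (-((d : ℝ) * k)) := by
              apply mul_lt_mul_of_pos_right _ h5
              linarith
  · have hVne : V.Nonempty := by
      rw [Set.nonempty_iff_ne_empty]
      rintro rfl
      rw [measure_empty] at hVlam
      rw [nonpos_iff_eq_zero, ENNReal.ofReal_eq_zero] at hVlam
      linarith
    obtain ⟨v, hv⟩ := hVne
    obtain ⟨a, s, has⟩ := hseg v hv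
    have hp := has s ⟨le_rfl, by linarith⟩
    have hp' : pt (∑ _i : Fin (2 ^ I), (fun i => a i + s * v i)) s ∈ sliceSum (2 ^ I) K :=
      ⟨s, fun _ => _, fun _ => hp, rfl⟩
    have h1 : δ₀ ≤ √(d + 1) * δ := by
      have h2 : 1 ≤ √((d : ℝ) + 1) := by
        rw [Real.one_le_sqrt]; linarith
      nlinarith
    refine le_trans ?_ (trivial_bound hp' h1)
    rw [← ENNReal.ofReal_toReal (measure_ball_lt_top (μ := volume)
      (x := (0 : EuclideanSpace ℝ (Fin (d + 1)))) (r := δ₀)).ne]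
    apply ENNReal.ofReal_le_ofReal
    calc min (ρ / (32 * (k + 1)) * (c₂ / 2 ^ (d * I))) c₄ * δ ^ ε ≤ c₄ * 1 := by
          apply mul_le_mul (min_le_right _ _) _ (Real.rpow_nonneg hδ.le _) hc₄0.le
          exact Real.rpow_le_one hδ.le hδ1.le hε.le
      _ = c₄ := mul_one _

theorem sumkakeya' (d : ℕ) (hd : 1 ≤ d) (ε : ℝ) (hε : 0 < ε) (m : ℕ)
    (h : ∀ ρ : ℝ, 0 < ρ → ρ ≤ 1 → ∀ R lam : ℝ, 0 ≤ R → 0 < lam → ∃ c : ℝ, 0 < c ∧
      ∀ K : Set (EuclideanSpace ℝ (Fin (d + 1))), K ⊆ Metric.closedBall 0 R →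
      ∀ V : Set (Fin d → ℝ), (∀ v ∈ V, ∀ i, v i ∈ Set.Icc (0 : ℝ) 1) →
      ENNReal.ofReal lam ≤ volume V →
      (∀ v ∈ V, ∃ (a : Fin d → ℝ) (s : ℝ), ∀ t ∈ Set.Icc s (s + ρ),
        pt (fun i => a i + t * v i) t ∈ K) →
      ∀ δ : ℝ, 0 < δ → δ < 1 →
      ENNReal.ofReal (c * δ ^ ε) ≤ volume (Metric.thickening (√(d + 1) * δ) (sliceSum m K)))
    (R : ℝ) : ∃ c : ℝ, 0 < c ∧
    ∀ K : Set (EuclideanSpace ℝ (Fin (d + 1))), K ⊆ Metric.closedBall 0 R →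
    (∀ ω : EuclideanSpace ℝ (Fin (d + 1)), ‖ω‖ = 1 → ∃ a : EuclideanSpace ℝ (Fin (d + 1)),
      ∀ t ∈ Set.Icc (0 : ℝ) 1, a + t • ω ∈ K) →
    ∀ δ : ℝ, 0 < δ → δ < 1 →
    ENNReal.ofReal (c * δ ^ ε) ≤ volume (Metric.thickening δ (sliceSum m K)) := by
  have hs1 : 1 ≤ √((d : ℝ) + 1) := by
    rw [Real.one_le_sqrt]; linarith [Nat.cast_nonneg (α := ℝ) d]
  have hs0 : 0 < √((d : ℝ) + 1) := by linarith
  obtain ⟨c, hc, h⟩ := h (1 / √((d : ℝ) + 1)) (by positivity) (by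
    rw [div_le_one hs0]; exact hs1) (max R 0) 1 (le_max_right _ _) one_pos
  refine ⟨c * (1 / √((d : ℝ) + 1)) ^ ε, by positivity, fun K hKR hK δ hδ hδ1 => ?_⟩
  set V : Set (Fin d → ℝ) := Set.Icc 0 1 with hV
  have hVv : volume V = 1 := by
    rw [hV, Real.volume_Icc_pi]; simp
  have hmem : ∀ v ∈ V, ∀ i, v i ∈ Set.Icc (0 : ℝ) 1 := fun v hv i => ⟨hv.1 i, hv.2 i⟩
  have hδ' : 0 < δ / √((d : ℝ) + 1) := by positivity
  have hle : δ / √((d : ℝ) + 1) ≤ δ := div_le_self hδ.le hs1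
  have h1 := h K (hKR.trans (Metric.closedBall_subset_closedBall (le_max_left _ _))) V hmem
    (by rw [hVv]; simp) (fun v hv => segs hK v (hmem v hv)) (δ / √((d : ℝ) + 1)) hδ' (by linarith)
  rw [mul_div_cancel₀ _ hs0.ne'] at h1
  refine le_trans (ENNReal.ofReal_le_ofReal (le_of_eq ?_)) h1
  rw [mul_assoc, ← Real.mul_rpow (by positivity) hδ.le]
  congr 2
  ring

end Pool.Agent.N240.S
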